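import Mathlib

open Finset
open scoped BigOperators

namespace Pool.Agent.H49.MMS

variable {κ : Type} [Fintype κ] [DecidableEq κ]

/-- the sign of a boolean -/
def sg (b : Bool) : ℝ := if b then -1 else 1

theorem sg_xor (a b : Bool) : sg (xor a b) = sg a * sg b := by
  cases a <;> cases b <;> simp [sg]

theorem sg_sq (a : Bool) : sg a ^ 2 = 1 := by
  cases a <;> simp [sg]

theorem sg_false : sg false = 1 := by simp [sg]

theorem sg_true : sg true = -1 := by simp [sg]

/-- flipping a fixed set of signs does not change the average -/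
theorem flip_inv (t : κ → Bool) (F : (κ → Bool) → ℝ) :
    𝔼 s : κ → Bool, F (fun j => xor (s j) (t j)) = 𝔼 s : κ → Bool, F s := by
  have hinv : Function.Involutive (fun (s : κ → Bool) (j : κ) => xor (s j) (t j)) := by
    intro s
    funext j
    simp
  exact Fintype.expect_equiv hinv.toPerm _ _ (fun s => rfl)

/-- a function even in the sign `i` is uncorrelated with it -/
theorem odd_zero (i : κ) (G : (κ → Bool) → ℝ)
    (hG : ∀ s, G (fun j => xor (s j) (decide (j = i))) = G s) :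
    𝔼 s : κ → Bool, sg (s i) * G s = 0 := by
  have h := flip_inv (fun j => decide (j = i)) (fun s => sg (s i) * G s)
  have h2 : ∀ s : κ → Bool, sg (xor (s i) (decide (i = i))) *
      G (fun j => xor (s j) (decide (j = i))) = - (sg (s i) * G s) := by
    intro s
    rw [hG s, sg_xor]
    simp [sg_true]
  have h3 : 𝔼 s : κ → Bool, sg (xor (s i) (decide (i = i))) *
      G (fun j => xor (s j) (decide (j = i))) = 𝔼 s : κ → Bool, - (sg (s i) * G s) :=
    Finset.expect_congr rfl fun s _ => h2 s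
  rw [Finset.expect_neg_distrib] at h3
  linarith [h.symm.trans h3]

omit [Fintype κ] in
theorem D_even (J : Finset κ) (δ : κ → ℝ) (i : κ) (hi : i ∉ J) (s : κ → Bool) :
    (∑ j ∈ J, sg (xor (s j) (decide (j = i))) * δ j) = ∑ j ∈ J, sg (s j) * δ j := by
  refine Finset.sum_congr rfl fun j hj => ?_
  have : j ≠ i := fun h => hi (h ▸ hj)
  simp [this]

theorem mom2 (J : Finset κ) (δ : κ → ℝ) :
    𝔼 s : κ → Bool, (∑ j ∈ J, sg (s j) * δ j) ^ 2 = ∑ j ∈ J, δ j ^ 2 := by
  induction J using Finset.induction_on with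
  | empty => simp
  | insert i J hi ih =>
    have h0 := odd_zero i (fun s => 2 * δ i * ∑ j ∈ J, sg (s j) * δ j)
      (fun s => by rw [D_even J δ i hi s])
    have h1 : ∀ s : κ → Bool, (∑ j ∈ insert i J, sg (s j) * δ j) ^ 2 =
        δ i ^ 2 + sg (s i) * (2 * δ i * ∑ j ∈ J, sg (s j) * δ j) +
          (∑ j ∈ J, sg (s j) * δ j) ^ 2 := by
      intro s
      rw [Finset.sum_insert hi]
      have := sg_sq (s i)
      linear_combination (δ i ^ 2) * this
    simp only [h1]
    rw [Finset.expect_add_distrib, Finset.expect_add_distrib, h0, ih, Fintype.expect_const,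
      Finset.sum_insert hi]
    ring

theorem mom4 (J : Finset κ) (δ : κ → ℝ) :
    𝔼 s : κ → Bool, (∑ j ∈ J, sg (s j) * δ j) ^ 4 ≤ 3 * (∑ j ∈ J, δ j ^ 2) ^ 2 := by
  induction J using Finset.induction_on with
  | empty => simp
  | insert i J hi ih =>
    have h0 := odd_zero i (fun s => 4 * δ i ^ 3 * ∑ j ∈ J, sg (s j) * δ j)
      (fun s => by rw [D_even J δ i hi s])
    have h0' := odd_zero i (fun s => 4 * δ i * (∑ j ∈ J, sg (s j) * δ j) ^ 3)
      (fun s => by rw [D_even J δ i hi s])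
    have h1 : ∀ s : κ → Bool, (∑ j ∈ insert i J, sg (s j) * δ j) ^ 4 =
        δ i ^ 4 + sg (s i) * (4 * δ i ^ 3 * ∑ j ∈ J, sg (s j) * δ j) +
          sg (s i) * (4 * δ i * (∑ j ∈ J, sg (s j) * δ j) ^ 3) +
          6 * δ i ^ 2 * (∑ j ∈ J, sg (s j) * δ j) ^ 2 +
          (∑ j ∈ J, sg (s j) * δ j) ^ 4 := by
      intro s
      rw [Finset.sum_insert hi]
      have h := sg_sq (s i)
      have h3 : sg (s i) ^ 3 = sg (s i) := by
        calc sg (s i) ^ 3 = sg (s i) ^ 2 * sg (s i) := by ring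
          _ = sg (s i) := by rw [h, one_mul]
      have h4 : sg (s i) ^ 4 = 1 := by
        calc sg (s i) ^ 4 = (sg (s i) ^ 2) ^ 2 := by ring
          _ = 1 := by rw [h, one_pow]
      linear_combination (6 * δ i ^ 2 * (∑ j ∈ J, sg (s j) * δ j) ^ 2) * h +
        (4 * δ i ^ 3 * ∑ j ∈ J, sg (s j) * δ j) * h3 + δ i ^ 4 * h4
    simp only [h1]
    rw [Finset.expect_add_distrib, Finset.expect_add_distrib, Finset.expect_add_distrib,
      Finset.expect_add_distrib, h0, h0', Fintype.expect_const,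
      ← Finset.mul_expect, mom2, Finset.sum_insert hi]
    have hq : 0 ≤ ∑ j ∈ J, δ j ^ 2 := Finset.sum_nonneg fun _ _ => sq_nonneg _
    nlinarith [sq_nonneg (δ i ^ 2)]

/-- small ball bound for a Rademacher sum of large variance -/
theorem pz (J : Finset κ) (δ : κ → ℝ) (a : ℝ) (ha : 0 < a) (hq : 4 * a ≤ ∑ j ∈ J, δ j ^ 2) :
    (21 : ℝ) / 100 ≤
      𝔼 s : κ → Bool, (if a < (∑ j ∈ J, sg (s j) * δ j) ^ 2 then (1 : ℝ) else 0) := by
  set q : ℝ := ∑ j ∈ J, δ j ^ 2 with hqdef
  have hq0 : 0 < q := by linarith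
  have hpt : ∀ s : κ → Bool, (3 / 5) / q * (∑ j ∈ J, sg (s j) * δ j) ^ 2 -
      (2 / 25) / q ^ 2 * (∑ j ∈ J, sg (s j) * δ j) ^ 4 - 3 / 20 ≤
      (if a < (∑ j ∈ J, sg (s j) * δ j) ^ 2 then (1 : ℝ) else 0) := by
    intro s
    set D : ℝ := ∑ j ∈ J, sg (s j) * δ j with hD
    have e : (3 / 5) / q * D ^ 2 - (2 / 25) / q ^ 2 * D ^ 4 - 3 / 20 =
        3 / 5 * (D ^ 2 / q) - 2 / 25 * (D ^ 2 / q) ^ 2 - 3 / 20 := by
      field_simp
    rw [e]
    set y : ℝ := D ^ 2 / q with hy
    split_ifs with h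
    · nlinarith [sq_nonneg (y - 15 / 4)]
    · have hy4 : y ≤ 1 / 4 := by
        rw [hy, div_le_iff₀ hq0]
        push Not at h
        linarith
      have hy0 : 0 ≤ y := by rw [hy]; positivity
      nlinarith [sq_nonneg y]
  have h2 := mom2 J δ
  have h4 := mom4 J δ
  calc (21 : ℝ) / 100 ≤ (3 / 5) / q * q - (2 / 25) / q ^ 2 * (3 * q ^ 2) - 3 / 20 := by
        have h1 : (3 / 5) / q * q = 3 / 5 := by field_simp
        have h2 : (2 / 25) / q ^ 2 * (3 * q ^ 2) = 6 / 25 := by field_simp; norm_num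
        rw [h1, h2]
        norm_num
    _ ≤ (3 / 5) / q * (𝔼 s : κ → Bool, (∑ j ∈ J, sg (s j) * δ j) ^ 2) -
        (2 / 25) / q ^ 2 * (𝔼 s : κ → Bool, (∑ j ∈ J, sg (s j) * δ j) ^ 4) - 3 / 20 := by
        rw [h2]
        have : (2 / 25) / q ^ 2 * (𝔼 s : κ → Bool, (∑ j ∈ J, sg (s j) * δ j) ^ 4) ≤
            (2 / 25) / q ^ 2 * (3 * q ^ 2) := mul_le_mul_of_nonneg_left h4 (by positivity)
        linarith
    _ = 𝔼 s : κ → Bool, ((3 / 5) / q * (∑ j ∈ J, sg (s j) * δ j) ^ 2 -
      (2 / 25) / q ^ 2 * (∑ j ∈ J, sg (s j) * δ j) ^ 4 - 3 / 20) := by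
        rw [Finset.expect_sub_distrib, Finset.expect_sub_distrib, Fintype.expect_const,
          ← Finset.mul_expect, ← Finset.mul_expect]
    _ ≤ _ := Finset.expect_le_expect fun s _ => hpt s

/-- indicator of the interval `[-W, W]` -/
noncomputable def pw (W x : ℝ) : ℝ := if |x| ≤ W then 1 else 0

theorem pw_nonneg (W x : ℝ) : 0 ≤ pw W x := by
  unfold pw; split_ifs <;> norm_num

theorem pw_le_one (W x : ℝ) : pw W x ≤ 1 := by
  unfold pw; split_ifs <;> norm_num

theorem pw_neg (W x : ℝ) : pw W (-x) = pw W x := by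
  unfold pw; rw [abs_neg]

theorem chain2 (W y1 y2 : ℝ) (h : y2 + 2 * W < y1) : pw W y1 + pw W y2 ≤ 1 := by
  unfold pw
  split_ifs with h1 h2 <;> try norm_num
  rw [abs_le] at h1 h2
  linarith [h1.1, h1.2, h2.1, h2.2]

theorem chain4 (W y1 y2 y3 y4 : ℝ) (hW : 0 ≤ W) (h : y2 + 2 * W < y1) (h' : y3 + 2 * W < y2)
    (h'' : y4 + 2 * W < y3) : pw W y1 + pw W y2 + pw W y3 + pw W y4 ≤ 1 := by
  have a12 := chain2 W y1 y2 h
  have a23 := chain2 W y2 y3 h'
  have a34 := chain2 W y3 y4 h''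
  have a13 := chain2 W y1 y3 (by linarith)
  have a14 := chain2 W y1 y4 (by linarith)
  have a24 := chain2 W y2 y4 (by linarith)
  have n1 : pw W y1 = 0 ∨ pw W y1 = 1 := by unfold pw; split_ifs <;> simp
  have n2 : pw W y2 = 0 ∨ pw W y2 = 1 := by unfold pw; split_ifs <;> simp
  have n3 : pw W y3 = 0 ∨ pw W y3 = 1 := by unfold pw; split_ifs <;> simp
  have n4 : pw W y4 = 0 ∨ pw W y4 = 1 := by unfold pw; split_ifs <;> simp
  rcases n1 with n1 | n1 <;> rcases n2 with n2 | n2 <;> rcases n3 with n3 | n3 <;>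
    rcases n4 with n4 | n4 <;> linarith

theorem eight_pos (W x A B C : ℝ) (hW : 0 ≤ W) (hA : W < A) (hB : W < B) (hC : W < C) :
    pw W (x + A + B + C) + pw W (x + A + B - C) + pw W (x + A - B + C) + pw W (x + A - B - C) +
    pw W (x - A + B + C) + pw W (x - A + B - C) + pw W (x - A - B + C) + pw W (x - A - B - C)
      ≤ 3 := by
  have c1 := chain4 W (x + A + B + C) (x - A + B + C) (x - A - B + C) (x - A - B - C) hW
    (by linarith) (by linarith) (by linarith)
  have c2 := chain2 W (x + A - B + C) (x + A - B - C) (by linarith)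
  have c3 := chain2 W (x + A + B - C) (x - A + B - C) (by linarith)
  linarith

theorem eight (W x A B C : ℝ) (hW : 0 ≤ W) (hA : W < |A|) (hB : W < |B|) (hC : W < |C|) :
    pw W (x + A + B + C) + pw W (x + A + B - C) + pw W (x + A - B + C) + pw W (x + A - B - C) +
    pw W (x - A + B + C) + pw W (x - A + B - C) + pw W (x - A - B + C) + pw W (x - A - B - C)
      ≤ 3 := by
  have h := eight_pos W x |A| |B| |C| hW hA hB hC
  rcases abs_choice A with hA' | hA' <;> rcases abs_choice B with hB' | hB' <;>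
    rcases abs_choice C with hC' | hC' <;> rw [hA', hB', hC'] at h <;>
    (try simp only [sub_neg_eq_add, ← sub_eq_add_neg] at h) <;> linarith

/-- flipping the signs in `J` -/
theorem flipJ (J : Finset κ) (δ : κ → ℝ) (C : ℝ) (p : ℝ → ℝ) :
    𝔼 s : κ → Bool, p (C + ∑ j, sg (s j) * δ j - 2 * ∑ j ∈ J, sg (s j) * δ j) =
      𝔼 s : κ → Bool, p (C + ∑ j, sg (s j) * δ j) := by
  rw [← flip_inv (fun j => decide (j ∈ J)) (fun s => p (C + ∑ j, sg (s j) * δ j))]
  refine Finset.expect_congr rfl fun s _ => ?_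
  congr 1
  have h : ∑ j, sg (xor (s j) (decide (j ∈ J))) * δ j =
      ∑ j, (sg (s j) * δ j - if j ∈ J then 2 * (sg (s j) * δ j) else 0) := by
    refine Finset.sum_congr rfl fun j _ => ?_
    rw [sg_xor]
    by_cases hj : j ∈ J
    · simp [hj, sg_true]; ring
    · simp [hj, sg_false]
  rw [h, Finset.sum_sub_distrib, Finset.sum_ite_mem, Finset.univ_inter, Finset.mul_sum]
  ring

/-- one large step -/
theorem one_big (δ : κ → ℝ) (C W : ℝ) (a : κ) (ha : W < |δ a|) :
    𝔼 s : κ → Bool, pw W (C + ∑ j, sg (s j) * δ j) ≤ 1 / 2 := by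
  have h := flipJ {a} δ C (pw W)
  have h2 : (𝔼 s : κ → Bool, pw W (C + ∑ j, sg (s j) * δ j)) +
      (𝔼 s : κ → Bool, pw W (C + ∑ j, sg (s j) * δ j - 2 * ∑ j ∈ ({a} : Finset κ), sg (s j) * δ j))
      ≤ 1 := by
    rw [← Finset.expect_add_distrib]
    calc _ ≤ 𝔼 _s : κ → Bool, (1 : ℝ) := by
          refine Finset.expect_le_expect fun s _ => ?_
          rw [Finset.sum_singleton]
          have hs : W < |sg (s a) * δ a| := by
            rw [abs_mul]
            have : |sg (s a)| = 1 := by cases s a <;> simp [sg]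
            rw [this, one_mul]; exact ha
          rcases lt_abs.1 hs with h | h
          · exact chain2 W _ _ (by linarith)
          · rw [add_comm]
            exact chain2 W _ _ (by linarith)
      _ = 1 := Fintype.expect_const _
  linarith

/-- three large steps -/
theorem three_big (δ : κ → ℝ) (C W : ℝ) (hW : 0 ≤ W) (a b c : κ) (hab : a ≠ b) (hac : a ≠ c)
    (hbc : b ≠ c) (ha : W < |δ a|) (hb : W < |δ b|) (hc : W < |δ c|) :
    𝔼 s : κ → Bool, pw W (C + ∑ j, sg (s j) * δ j) ≤ 3 / 8 := by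
  have h0 := flipJ ∅ δ C (pw W)
  have h1 := flipJ {a} δ C (pw W)
  have h2 := flipJ {b} δ C (pw W)
  have h3 := flipJ {c} δ C (pw W)
  have h4 := flipJ {a, b} δ C (pw W)
  have h5 := flipJ {a, c} δ C (pw W)
  have h6 := flipJ {b, c} δ C (pw W)
  have h7 := flipJ {a, b, c} δ C (pw W)
  have key : (𝔼 s : κ → Bool, (
      pw W (C + ∑ j, sg (s j) * δ j - 2 * ∑ j ∈ (∅ : Finset κ), sg (s j) * δ j) +
      pw W (C + ∑ j, sg (s j) * δ j - 2 * ∑ j ∈ ({a} : Finset κ), sg (s j) * δ j) +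
      pw W (C + ∑ j, sg (s j) * δ j - 2 * ∑ j ∈ ({b} : Finset κ), sg (s j) * δ j) +
      pw W (C + ∑ j, sg (s j) * δ j - 2 * ∑ j ∈ ({c} : Finset κ), sg (s j) * δ j) +
      pw W (C + ∑ j, sg (s j) * δ j - 2 * ∑ j ∈ ({a, b} : Finset κ), sg (s j) * δ j) +
      pw W (C + ∑ j, sg (s j) * δ j - 2 * ∑ j ∈ ({a, c} : Finset κ), sg (s j) * δ j) +
      pw W (C + ∑ j, sg (s j) * δ j - 2 * ∑ j ∈ ({b, c} : Finset κ), sg (s j) * δ j) +
      pw W (C + ∑ j, sg (s j) * δ j - 2 * ∑ j ∈ ({a, b, c} : Finset κ), sg (s j) * δ j))) ≤ 3 := by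
    calc _ ≤ 𝔼 _s : κ → Bool, (3 : ℝ) := by
          refine Finset.expect_le_expect fun s _ => ?_
          have hs : ∀ i, |sg (s i) * δ i| = |δ i| := by
            intro i
            rw [abs_mul]
            have : |sg (s i)| = 1 := by cases s i <;> simp [sg]
            rw [this, one_mul]
          have h8 := eight W (C + ∑ j, sg (s j) * δ j - sg (s a) * δ a - sg (s b) * δ b
            - sg (s c) * δ c) (sg (s a) * δ a) (sg (s b) * δ b) (sg (s c) * δ c) hW
            (by rw [hs]; exact ha) (by rw [hs]; exact hb) (by rw [hs]; exact hc)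
          have e1 : ∑ j ∈ ({a, b} : Finset κ), sg (s j) * δ j = sg (s a) * δ a + sg (s b) * δ b :=
            Finset.sum_pair hab
          have e2 : ∑ j ∈ ({a, c} : Finset κ), sg (s j) * δ j = sg (s a) * δ a + sg (s c) * δ c :=
            Finset.sum_pair hac
          have e3 : ∑ j ∈ ({b, c} : Finset κ), sg (s j) * δ j = sg (s b) * δ b + sg (s c) * δ c :=
            Finset.sum_pair hbc
          have e4 : ∑ j ∈ ({a, b, c} : Finset κ), sg (s j) * δ j =
              sg (s a) * δ a + (sg (s b) * δ b + sg (s c) * δ c) := by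
            rw [Finset.sum_insert (by simp [hab, hac]), Finset.sum_pair hbc]
          rw [e1, e2, e3, e4, Finset.sum_empty, Finset.sum_singleton, Finset.sum_singleton,
            Finset.sum_singleton]
          refine le_trans (le_of_eq ?_) h8
          ring_nf
      _ = 3 := Fintype.expect_const _
  rw [Finset.expect_add_distrib, Finset.expect_add_distrib, Finset.expect_add_distrib,
    Finset.expect_add_distrib, Finset.expect_add_distrib, Finset.expect_add_distrib,
    Finset.expect_add_distrib, h0, h1, h2, h3, h4, h5, h6, h7] at key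
  linarith

end Pool.Agent.H49.MMS
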