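import Mathlib
import Pool.Agent.H49.MMS.Rad

open Finset
open scoped BigOperators

namespace Pool.Agent.H49.MMS

variable {κ : Type} [Fintype κ] [DecidableEq κ]

/-- independence of functions of disjoint sets of signs -/
theorem indep (A : Finset κ) (H h : (κ → Bool) → ℝ)
    (hH : ∀ s s' : κ → Bool, (∀ j, j ∉ A → s j = s' j) → H s = H s')
    (hh : ∀ s s' : κ → Bool, (∀ j ∈ A, s j = s' j) → h s = h s') :
    𝔼 s : κ → Bool, H s * h s = (𝔼 s : κ → Bool, H s) * 𝔼 s : κ → Bool, h s := by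
  have h1 : ∀ t : κ → Bool, 𝔼 s : κ → Bool, H s * h s =
      𝔼 s : κ → Bool, H s * h (fun j => xor (t j) (s j)) := by
    intro t
    rw [← flip_inv (fun j => t j && decide (j ∈ A)) (fun s => H s * h s)]
    refine Finset.expect_congr rfl fun s _ => ?_
    rw [hH _ s (fun j hj => by simp [hj]),
      hh _ (fun j => xor (t j) (s j)) (fun j hj => by simp [hj, Bool.xor_comm])]
  calc 𝔼 s : κ → Bool, H s * h s = 𝔼 _t : κ → Bool, 𝔼 s : κ → Bool, H s * h s := by
        rw [Fintype.expect_const]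
    _ = 𝔼 t : κ → Bool, 𝔼 s : κ → Bool, H s * h (fun j => xor (t j) (s j)) :=
        Finset.expect_congr rfl fun t _ => h1 t
    _ = 𝔼 s : κ → Bool, 𝔼 t : κ → Bool, H s * h (fun j => xor (t j) (s j)) :=
        Finset.expect_comm _ _ _
    _ = 𝔼 s : κ → Bool, H s * 𝔼 t : κ → Bool, h t := by
        refine Finset.expect_congr rfl fun s _ => ?_
        rw [← Finset.mul_expect, flip_inv s h]
    _ = _ := by rw [Finset.expect_mul]

/-- independence of a family -/
theorem indep_prod {γ : Type} [DecidableEq γ] (Γ : Finset γ) (G : γ → Finset κ)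
    (hG : ∀ g ∈ Γ, ∀ g' ∈ Γ, g ≠ g' → Disjoint (G g) (G g')) (h : γ → (κ → Bool) → ℝ)
    (hh : ∀ g ∈ Γ, ∀ s s' : κ → Bool, (∀ j ∈ G g, s j = s' j) → h g s = h g s') :
    𝔼 s : κ → Bool, ∏ g ∈ Γ, h g s = ∏ g ∈ Γ, 𝔼 s : κ → Bool, h g s := by
  induction Γ using Finset.induction_on with
  | empty => simp
  | insert g0 Γ hg0 ih =>
    rw [Finset.prod_insert hg0, ← ih (fun g hg g' hg' => hG g (Finset.mem_insert_of_mem hg) g'
      (Finset.mem_insert_of_mem hg')) (fun g hg => hh g (Finset.mem_insert_of_mem hg))]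
    rw [mul_comm, ← indep (G g0) (fun s => ∏ g ∈ Γ, h g s) (h g0) ?_ ?_]
    · refine Finset.expect_congr rfl fun s _ => ?_
      rw [Finset.prod_insert hg0, mul_comm]
    · intro s s' hs
      refine Finset.prod_congr rfl fun g hg => ?_
      refine hh g (Finset.mem_insert_of_mem hg) s s' fun j hj => hs j ?_
      have hne : g ≠ g0 := fun h => hg0 (h ▸ hg)
      exact Finset.disjoint_left.1 (hG g (Finset.mem_insert_of_mem hg) g0
        (Finset.mem_insert_self _ _) hne) hj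
    · exact hh g0 (Finset.mem_insert_self _ _)

/-- anticoncentration from many disjoint groups of steps -/
theorem groups (m : ℕ) (G : Fin m → Finset κ) (hG : ∀ g g', g ≠ g' → Disjoint (G g) (G g'))
    (δ : κ → ℝ) (C W : ℝ) (hW : 0 < W) (hq : ∀ g, 4 * W ^ 2 ≤ ∑ j ∈ G g, δ j ^ 2) :
    𝔼 s : κ → Bool, pw W (C + ∑ j, sg (s j) * δ j) ≤ 3 / 8 + 256 * (257 / 320) ^ m := by
  set U : Finset κ := univ.biUnion G with hU
  have hT : ∀ (t : Fin m → Bool) (g : Fin m) (j : κ), j ∈ G g →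
      (decide (∃ g, j ∈ G g ∧ t g = true)) = t g := by
    intro t g j hj
    by_cases ht : t g = true
    · rw [ht]
      exact decide_eq_true ⟨g, hj, ht⟩
    · have : ¬ ∃ g, j ∈ G g ∧ t g = true := by
        rintro ⟨g', hg', ht'⟩
        by_cases h : g = g'
        · subst h; exact ht ht'
        · exact Finset.disjoint_left.1 (hG g g' h) hj hg'
      rw [decide_eq_false this]
      simp at ht
      exact ht.symm
  have hdec : ∀ (t : Fin m → Bool) (s : κ → Bool),
      ∑ j, sg (xor (s j) (decide (∃ g, j ∈ G g ∧ t g = true))) * δ j =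
      (∑ j ∈ Uᶜ, sg (s j) * δ j) + ∑ g, sg (t g) * ∑ j ∈ G g, sg (s j) * δ j := by
    intro t s
    rw [← Finset.sum_add_sum_compl U, add_comm]
    congr 1
    · refine Finset.sum_congr rfl fun j hj => ?_
      have : ¬ ∃ g, j ∈ G g ∧ t g = true := by
        rintro ⟨g, hg, _⟩
        rw [Finset.mem_compl, hU, Finset.mem_biUnion] at hj
        exact hj ⟨g, Finset.mem_univ _, hg⟩
      rw [decide_eq_false this, Bool.xor_false]
    · rw [hU, Finset.sum_biUnion (fun g _ g' _ h => hG g g' h)]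
      refine Finset.sum_congr rfl fun g _ => ?_
      rw [Finset.mul_sum]
      refine Finset.sum_congr rfl fun j hj => ?_
      rw [hT t g j hj, sg_xor]
      ring
  have hstep : ∀ t : Fin m → Bool, 𝔼 s : κ → Bool, pw W (C + ∑ j, sg (s j) * δ j) =
      𝔼 s : κ → Bool, pw W ((C + ∑ j ∈ Uᶜ, sg (s j) * δ j) +
        ∑ g, sg (t g) * ∑ j ∈ G g, sg (s j) * δ j) := by
    intro t
    rw [← flip_inv (fun j => decide (∃ g, j ∈ G g ∧ t g = true))
      (fun s => pw W (C + ∑ j, sg (s j) * δ j))]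
    refine Finset.expect_congr rfl fun s _ => ?_
    rw [hdec t s, add_assoc]
  have hpt : ∀ s : κ → Bool, 𝔼 t : Fin m → Bool, pw W ((C + ∑ j ∈ Uᶜ, sg (s j) * δ j) +
        ∑ g, sg (t g) * ∑ j ∈ G g, sg (s j) * δ j) ≤
      3 / 8 + 256 * ∏ g, (if W ^ 2 < (∑ j ∈ G g, sg (s j) * δ j) ^ 2 then (1 / 16 : ℝ) else 1) := by
    intro s
    have hprod : ∏ g, (if W ^ 2 < (∑ j ∈ G g, sg (s j) * δ j) ^ 2 then (1 / 16 : ℝ) else 1) =
        (1 / 16) ^ (univ.filter (fun g => W ^ 2 < (∑ j ∈ G g, sg (s j) * δ j) ^ 2)).card := by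
      rw [Finset.prod_ite, Finset.prod_const, Finset.prod_const_one, mul_one]
    rw [hprod]
    by_cases h3 : 2 < (univ.filter (fun g => W ^ 2 < (∑ j ∈ G g, sg (s j) * δ j) ^ 2)).card
    · obtain ⟨a, b, c, ha, hb, hc, hab, hac, hbc⟩ := Finset.two_lt_card_iff.1 h3
      have hbig : ∀ g, g ∈ univ.filter (fun g => W ^ 2 < (∑ j ∈ G g, sg (s j) * δ j) ^ 2) →
          W < |∑ j ∈ G g, sg (s j) * δ j| := by
        intro g hg
        have := (Finset.mem_filter.1 hg).2
        rw [sq_lt_sq, abs_of_pos hW] at this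
        exact this
      have := three_big (fun g => ∑ j ∈ G g, sg (s j) * δ j) (C + ∑ j ∈ Uᶜ, sg (s j) * δ j) W
        hW.le a b c hab hac hbc (hbig a ha) (hbig b hb) (hbig c hc)
      have hnn : (0 : ℝ) ≤ 256 * (1 / 16) ^ (univ.filter
        (fun g => W ^ 2 < (∑ j ∈ G g, sg (s j) * δ j) ^ 2)).card := by positivity
      linarith
    · push Not at h3
      have h1 : 𝔼 t : Fin m → Bool, pw W ((C + ∑ j ∈ Uᶜ, sg (s j) * δ j) +
          ∑ g, sg (t g) * ∑ j ∈ G g, sg (s j) * δ j) ≤ 1 := by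
        calc _ ≤ 𝔼 _t : Fin m → Bool, (1 : ℝ) :=
              Finset.expect_le_expect fun t _ => pw_le_one _ _
          _ = 1 := Fintype.expect_const _
      have h2 : (1 / 16 : ℝ) ^ 2 ≤ (1 / 16) ^ (univ.filter
        (fun g => W ^ 2 < (∑ j ∈ G g, sg (s j) * δ j) ^ 2)).card :=
        pow_le_pow_of_le_one (by norm_num) (by norm_num) h3
      have h4 : (1 / 16 : ℝ) ^ 2 = 1 / 256 := by norm_num
      rw [h4] at h2
      linarith
  have hind : 𝔼 s : κ → Bool, ∏ g,
      (if W ^ 2 < (∑ j ∈ G g, sg (s j) * δ j) ^ 2 then (1 / 16 : ℝ) else 1) ≤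
      (257 / 320) ^ m := by
    rw [indep_prod univ G (fun g _ g' _ h => hG g g' h)
      (fun g s => if W ^ 2 < (∑ j ∈ G g, sg (s j) * δ j) ^ 2 then (1 / 16 : ℝ) else 1) ?_]
    · calc ∏ g, 𝔼 s : κ → Bool,
            (if W ^ 2 < (∑ j ∈ G g, sg (s j) * δ j) ^ 2 then (1 / 16 : ℝ) else 1)
          ≤ ∏ _g : Fin m, (257 / 320 : ℝ) := by
            refine Finset.prod_le_prod (fun g _ => ?_) (fun g _ => ?_)
            · refine Finset.expect_nonneg fun s _ => ?_
              split_ifs <;> norm_num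
            · have hp := pz (G g) δ (W ^ 2) (by positivity) (hq g)
              have h1 : ∀ s : κ → Bool,
                  (if W ^ 2 < (∑ j ∈ G g, sg (s j) * δ j) ^ 2 then (1 / 16 : ℝ) else 1) =
                  1 - (15 / 16) *
                    (if W ^ 2 < (∑ j ∈ G g, sg (s j) * δ j) ^ 2 then (1 : ℝ) else 0) := by
                intro s
                split_ifs <;> norm_num
              rw [Finset.expect_congr rfl fun s _ => h1 s, Finset.expect_sub_distrib,
                Fintype.expect_const, ← Finset.mul_expect]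
              linarith
        _ = _ := by rw [Finset.prod_const, Finset.card_univ, Fintype.card_fin]
    · intro g _ s s' hs
      have : ∑ j ∈ G g, sg (s j) * δ j = ∑ j ∈ G g, sg (s' j) * δ j :=
        Finset.sum_congr rfl fun j hj => by rw [hs j hj]
      simp only [this]
  calc 𝔼 s : κ → Bool, pw W (C + ∑ j, sg (s j) * δ j)
      = 𝔼 _t : Fin m → Bool, 𝔼 s : κ → Bool, pw W (C + ∑ j, sg (s j) * δ j) := by
        rw [Fintype.expect_const]
    _ = 𝔼 t : Fin m → Bool, 𝔼 s : κ → Bool, pw W ((C + ∑ j ∈ Uᶜ, sg (s j) * δ j) +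
        ∑ g, sg (t g) * ∑ j ∈ G g, sg (s j) * δ j) :=
        Finset.expect_congr rfl fun t _ => hstep t
    _ = 𝔼 s : κ → Bool, 𝔼 t : Fin m → Bool, pw W ((C + ∑ j ∈ Uᶜ, sg (s j) * δ j) +
        ∑ g, sg (t g) * ∑ j ∈ G g, sg (s j) * δ j) := Finset.expect_comm _ _ _
    _ ≤ 𝔼 s : κ → Bool, (3 / 8 + 256 * ∏ g,
        (if W ^ 2 < (∑ j ∈ G g, sg (s j) * δ j) ^ 2 then (1 / 16 : ℝ) else 1)) :=
        Finset.expect_le_expect fun s _ => hpt s
    _ = 3 / 8 + 256 * 𝔼 s : κ → Bool, ∏ g,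
        (if W ^ 2 < (∑ j ∈ G g, sg (s j) * δ j) ^ 2 then (1 / 16 : ℝ) else 1) := by
        rw [Finset.expect_add_distrib, Fintype.expect_const, ← Finset.mul_expect]
    _ ≤ _ := by linarith

omit [Fintype κ] in
theorem greedy_one (w : κ → ℝ) (a : ℝ) (ha : 0 < a) (J : Finset κ)
    (h16 : ∀ j ∈ J, w j ≤ 16 * a) (hs : 4 * a ≤ ∑ j ∈ J, w j) :
    ∃ G ⊆ J, 4 * a ≤ ∑ j ∈ G, w j ∧ ∑ j ∈ G, w j ≤ 20 * a := by
  induction J using Finset.induction_on with
  | empty => simp at hs; linarith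
  | insert i J hi ih =>
    by_cases h : 4 * a ≤ ∑ j ∈ J, w j
    · obtain ⟨G, hG, h1, h2⟩ := ih (fun j hj => h16 j (Finset.mem_insert_of_mem hj)) h
      exact ⟨G, hG.trans (Finset.subset_insert _ _), h1, h2⟩
    · push Not at h
      refine ⟨insert i J, subset_rfl, hs, ?_⟩
      rw [Finset.sum_insert hi]
      have := h16 i (Finset.mem_insert_self _ _)
      linarith

omit [Fintype κ] in
theorem greedy (w : κ → ℝ) (a : ℝ) (ha : 0 < a) (m : ℕ) : ∀ J : Finset κ,
    (∀ j ∈ J, w j ≤ 16 * a) → 20 * a * m ≤ ∑ j ∈ J, w j →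
    ∃ G : Fin m → Finset κ, (∀ g, G g ⊆ J) ∧ (∀ g g', g ≠ g' → Disjoint (G g) (G g')) ∧
      ∀ g, 4 * a ≤ ∑ j ∈ G g, w j := by
  induction m with
  | zero =>
    intro J _ _
    exact ⟨fun g => g.elim0, fun g => g.elim0, fun g => g.elim0, fun g => g.elim0⟩
  | succ m ih =>
    intro J h16 hs
    push_cast at hs
    have hm : (0 : ℝ) ≤ 20 * a * m := by positivity
    obtain ⟨G0, hG0, h1, h2⟩ := greedy_one w a ha J h16 (by nlinarith)
    have hsd : ∑ j ∈ J \ G0, w j = ∑ j ∈ J, w j - ∑ j ∈ G0, w j := by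
      rw [← Finset.sum_sdiff hG0]; ring
    obtain ⟨G, g1, g2, g3⟩ := ih (J \ G0) (fun j hj => h16 j (Finset.mem_sdiff.1 hj).1)
      (by rw [hsd]; nlinarith)
    refine ⟨Fin.cons G0 G, ?_, ?_, ?_⟩
    · intro g
      refine Fin.cases ?_ (fun g => ?_) g
      · exact hG0
      · exact (g1 g).trans Finset.sdiff_subset
    · intro g g'
      refine Fin.cases ?_ (fun g => ?_) g <;> refine Fin.cases ?_ (fun g' => ?_) g'
      · intro h; exact absurd rfl h
      · intro _
        simp only [Fin.cons_zero, Fin.cons_succ]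
        exact Finset.disjoint_of_subset_right (g1 g') Finset.disjoint_sdiff
      · intro _
        simp only [Fin.cons_zero, Fin.cons_succ]
        exact (Finset.disjoint_of_subset_right (g1 g) Finset.disjoint_sdiff).symm
      · intro h
        simp only [Fin.cons_succ]
        exact g2 g g' (fun h' => h (by rw [h']))
    · intro g
      refine Fin.cases ?_ (fun g => ?_) g
      · exact h1
      · exact g3 g

/-- anticoncentration of a Rademacher sum with a well spread part -/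
theorem spreadR (J : Finset κ) (δ : κ → ℝ) (C W : ℝ) (hW : 0 < W)
    (h16 : ∀ j ∈ J, δ j ^ 2 ≤ 16 * W ^ 2) (hq : 1200 * W ^ 2 ≤ ∑ j ∈ J, δ j ^ 2) :
    𝔼 s : κ → Bool, pw W (C + ∑ j, sg (s j) * δ j) ≤ 47 / 125 := by
  obtain ⟨G, _, g2, g3⟩ := greedy (fun j => δ j ^ 2) (W ^ 2) (by positivity) 60 J h16
    (by push_cast; linarith)
  refine (groups 60 G g2 δ C W hW g3).trans ?_
  norm_num

end Pool.Agent.H49.MMS
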