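import Mathlib

open Finset
open scoped BigOperators

namespace Pool.Agent.H49.MMS

variable {Λ α : Type} [Fintype Λ] [DecidableEq Λ] [Fintype α] [DecidableEq α]

/-- precomposition by a permutation does not change the average over bijections -/
theorem expect_pre (π : Equiv.Perm Λ) (F : (Λ ≃ α) → ℝ) :
    𝔼 e : Λ ≃ α, F (π.trans e) = 𝔼 e : Λ ≃ α, F e := by
  refine Fintype.expect_equiv (Equiv.equivCongr π.symm (Equiv.refl α)) _ _ ?_
  intro e
  congr 1

/-- the law of the images of an injective tuple -/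
theorem law_emb {m : ℕ} [Nonempty (Λ ≃ α)] (τ : Fin m ↪ Λ) (F : (Fin m → α) → ℝ) :
    𝔼 e : Λ ≃ α, F (fun i => e (τ i)) = 𝔼 φ : Fin m ↪ α, F (fun i => φ i) := by
  have key : ∀ τ' : Fin m ↪ Λ, 𝔼 e : Λ ≃ α, F (fun i => e (τ' i)) =
      𝔼 e : Λ ≃ α, F (fun i => e (τ i)) := by
    intro τ'
    obtain ⟨π, hπ⟩ := Equiv.Perm.exists_extending_pair (fun i => τ i) (fun i => τ' i)
      τ.injective τ'.injective
    have := expect_pre π (fun e : Λ ≃ α => F (fun i => e (τ i)))
    simp only [Equiv.trans_apply] at this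
    rw [← this]
    refine Finset.expect_congr rfl fun e _ => ?_
    congr 1
    funext i
    rw [hπ i]
  have : Nonempty (Fin m ↪ Λ) := ⟨τ⟩
  calc 𝔼 e : Λ ≃ α, F (fun i => e (τ i))
      = 𝔼 _τ' : Fin m ↪ Λ, 𝔼 e : Λ ≃ α, F (fun i => e (τ i)) := by
        rw [Fintype.expect_const]
    _ = 𝔼 τ' : Fin m ↪ Λ, 𝔼 e : Λ ≃ α, F (fun i => e (τ' i)) :=
        Finset.expect_congr rfl fun τ' _ => (key τ').symm
    _ = 𝔼 e : Λ ≃ α, 𝔼 τ' : Fin m ↪ Λ, F (fun i => e (τ' i)) := Finset.expect_comm _ _ _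
    _ = 𝔼 _e : Λ ≃ α, 𝔼 φ : Fin m ↪ α, F (fun i => φ i) := by
        refine Finset.expect_congr rfl fun e _ => ?_
        exact Fintype.expect_equiv (Equiv.embeddingCongr (Equiv.refl _) e) _ _ (fun τ' => rfl)
    _ = 𝔼 φ : Fin m ↪ α, F (fun i => φ i) := Fintype.expect_const _

/-- the law of the image of a fixed set -/
theorem law_set [Nonempty (Λ ≃ α)] (A : Finset Λ) (F : Finset α → ℝ) :
    𝔼 e : Λ ≃ α, F (A.map e.toEmbedding) = 𝔼 S ∈ univ.powersetCard A.card, F S := by
  have key : ∀ A' ∈ (univ : Finset Λ).powersetCard A.card,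
      𝔼 e : Λ ≃ α, F (A'.map e.toEmbedding) = 𝔼 e : Λ ≃ α, F (A.map e.toEmbedding) := by
    intro A' hA'
    obtain ⟨π, hπ⟩ := Equiv.Perm.exists_map_finset_eq A A' (mem_powersetCard.1 hA').2.symm
    rw [← expect_pre π (fun e : Λ ≃ α => F (A.map e.toEmbedding))]
    refine Finset.expect_congr rfl fun e _ => ?_
    congr 1
    rw [← hπ, Finset.map_map]
    rfl
  have hne : ((univ : Finset Λ).powersetCard A.card).Nonempty :=
    powersetCard_nonempty.2 (card_le_univ A)
  calc 𝔼 e : Λ ≃ α, F (A.map e.toEmbedding)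
      = 𝔼 _A' ∈ (univ : Finset Λ).powersetCard A.card, 𝔼 e : Λ ≃ α, F (A.map e.toEmbedding) := by
        rw [Finset.expect_const hne]
    _ = 𝔼 A' ∈ (univ : Finset Λ).powersetCard A.card, 𝔼 e : Λ ≃ α, F (A'.map e.toEmbedding) :=
        Finset.expect_congr rfl fun A' h => (key A' h).symm
    _ = 𝔼 e : Λ ≃ α, 𝔼 A' ∈ (univ : Finset Λ).powersetCard A.card, F (A'.map e.toEmbedding) :=
        Finset.expect_comm _ _ _
    _ = 𝔼 _e : Λ ≃ α, 𝔼 S ∈ (univ : Finset α).powersetCard A.card, F S := by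
        refine Finset.expect_congr rfl fun e _ => ?_
        refine Finset.expect_equiv (Equiv.finsetCongr e) ?_ ?_
        · intro A'
          simp [mem_powersetCard]
        · intro A' _
          rfl
    _ = 𝔼 S ∈ univ.powersetCard A.card, F S := Fintype.expect_const _

/-- the law of the images of two distinct points -/
theorem law_pair [Nonempty (Λ ≃ α)] {l m : Λ} (h : l ≠ m) (G : α → α → ℝ) :
    𝔼 e : Λ ≃ α, G (e l) (e m) =
      (∑ a, ∑ b, if a = b then 0 else G a b) /
        ((Fintype.card α : ℝ) * ((Fintype.card α : ℝ) - 1)) := by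
  have key : ∀ p ∈ (univ : Finset Λ).offDiag,
      𝔼 e : Λ ≃ α, G (e p.1) (e p.2) = 𝔼 e : Λ ≃ α, G (e l) (e m) := by
    intro p hp
    have hp' : p.1 ≠ p.2 := (mem_offDiag.1 hp).2.2
    obtain ⟨π, hπ⟩ := Equiv.Perm.exists_extending_pair (![l, m]) (![p.1, p.2])
      (by
        intro i j hij
        fin_cases i <;> fin_cases j <;> simp_all)
      (by
        intro i j hij
        fin_cases i <;> fin_cases j <;> simp_all)
    have h0 := hπ 0
    have h1 := hπ 1
    simp only [Matrix.cons_val_zero, Matrix.cons_val_one] at h0 h1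
    rw [← expect_pre π (fun e : Λ ≃ α => G (e l) (e m))]
    refine Finset.expect_congr rfl fun e _ => ?_
    simp only [Equiv.trans_apply, h0, h1]
  have hne : ((univ : Finset Λ).offDiag).Nonempty := ⟨(l, m), by simp [h]⟩
  have e0 : Λ ≃ α := Classical.arbitrary _
  calc 𝔼 e : Λ ≃ α, G (e l) (e m)
      = 𝔼 _p ∈ (univ : Finset Λ).offDiag, 𝔼 e : Λ ≃ α, G (e l) (e m) := by
        rw [Finset.expect_const hne]
    _ = 𝔼 p ∈ (univ : Finset Λ).offDiag, 𝔼 e : Λ ≃ α, G (e p.1) (e p.2) :=
        Finset.expect_congr rfl fun p h => (key p h).symm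
    _ = 𝔼 e : Λ ≃ α, 𝔼 p ∈ (univ : Finset Λ).offDiag, G (e p.1) (e p.2) :=
        Finset.expect_comm _ _ _
    _ = 𝔼 _e : Λ ≃ α, 𝔼 q ∈ (univ : Finset α).offDiag, G q.1 q.2 := by
        refine Finset.expect_congr rfl fun e _ => ?_
        refine Finset.expect_equiv (Equiv.prodCongr e e) ?_ ?_
        · intro q
          simp
        · intro q _
          rfl
    _ = 𝔼 q ∈ (univ : Finset α).offDiag, G q.1 q.2 := Fintype.expect_const _
    _ = _ := by
        rw [Finset.expect_eq_sum_div_card, Finset.offDiag_card]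
        congr 1
        · rw [← Finset.sum_product' univ univ (fun a b => if a = b then 0 else G a b)]
          rw [← Finset.diag_union_offDiag, Finset.sum_union (Finset.disjoint_diag_offDiag _)]
          rw [Finset.sum_eq_zero (s := (univ : Finset α).diag), zero_add]
          · refine Finset.sum_congr rfl fun q hq => ?_
            rw [if_neg (mem_offDiag.1 hq).2.2]
          · intro q hq
            rw [if_pos (mem_diag.1 hq).2]
        · have : (univ : Finset α).card ≤ (univ : Finset α).card * (univ : Finset α).card :=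
            Nat.le_mul_self _
          push_cast [Nat.cast_sub this]
          rw [Finset.card_univ]
          ring

/-- the law of four distinct points, upper bound for a product of nonnegative functions -/
theorem law_four [Nonempty (Λ ≃ α)] {a b c d : Λ} (hab : a ≠ b) (hac : a ≠ c) (had : a ≠ d)
    (hbc : b ≠ c) (hbd : b ≠ d) (hcd : c ≠ d) (g : α → α → ℝ) (hg : ∀ x y, 0 ≤ g x y) :
    𝔼 e : Λ ≃ α, g (e a) (e b) * g (e c) (e d) ≤
      (∑ x, ∑ y, g x y) ^ 2 /
        ((Fintype.card α : ℝ) * ((Fintype.card α : ℝ) - 1) * ((Fintype.card α : ℝ) - 2) *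
          ((Fintype.card α : ℝ) - 3)) := by
  have hinj : Function.Injective (![a, b, c, d]) := by
    intro i j hij
    fin_cases i <;> fin_cases j <;> simp_all
  have hL := law_emb (α := α) ⟨![a, b, c, d], hinj⟩
    (fun f : Fin 4 → α => g (f 0) (f 1) * g (f 2) (f 3))
  simp only [Function.Embedding.coeFn_mk, Matrix.cons_val_zero, Matrix.cons_val_one,
    Matrix.cons_val] at hL
  rw [hL]
  have e0 : Λ ≃ α := Classical.arbitrary _
  have hcard : 4 ≤ Fintype.card α := by
    have := Fintype.card_le_of_injective _ (e0.injective.comp hinj)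
    simpa using this
  obtain ⟨n, hn⟩ := Nat.exists_eq_add_of_le hcard
  rw [Fintype.expect_eq_sum_div_card, Fintype.card_embedding_eq, Fintype.card_fin]
  have hden : ((Nat.descFactorial (Fintype.card α) 4 : ℕ) : ℝ) =
      ((Fintype.card α : ℝ) * ((Fintype.card α : ℝ) - 1) * ((Fintype.card α : ℝ) - 2) *
          ((Fintype.card α : ℝ) - 3)) := by
    rw [hn]
    have h3 : 4 + n - 3 = n + 1 := by omega
    have h2 : 4 + n - 2 = n + 2 := by omega
    have h1 : 4 + n - 1 = n + 3 := by omega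
    simp only [Nat.descFactorial, h3, h2, h1, Nat.sub_zero]
    push_cast
    ring
  rw [hden]
  have hpos : 0 < ((Fintype.card α : ℝ) * ((Fintype.card α : ℝ) - 1) * ((Fintype.card α : ℝ) - 2) *
          ((Fintype.card α : ℝ) - 3)) := by
    rw [← hden]
    have : 0 < Nat.descFactorial (Fintype.card α) 4 := Nat.descFactorial_pos.2 hcard
    exact_mod_cast this
  refine div_le_div_of_nonneg_right ?_ hpos.le
  have hS : (∑ x, ∑ y, g x y) ^ 2 = ∑ p : (α × α) × (α × α), g p.1.1 p.1.2 * g p.2.1 p.2.2 := by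
    have h1 : ∑ x, ∑ y, g x y = ∑ p : α × α, g p.1 p.2 := (Fintype.sum_prod_type' g).symm
    rw [pow_two, h1, Finset.sum_mul_sum]
    exact (Fintype.sum_prod_type' (fun p q : α × α => g p.1 p.2 * g q.1 q.2)).symm
  rw [hS]
  let ι : (Fin 4 ↪ α) ↪ (α × α) × (α × α) :=
    ⟨fun φ => ((φ 0, φ 1), (φ 2, φ 3)), by
      intro φ ψ h
      simp only [Prod.mk.injEq] at h
      ext i
      fin_cases i
      · exact h.1.1
      · exact h.1.2
      · exact h.2.1
      · exact h.2.2⟩
  calc ∑ φ : Fin 4 ↪ α, g (φ 0) (φ 1) * g (φ 2) (φ 3)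
      = ∑ p ∈ univ.map ι, g p.1.1 p.1.2 * g p.2.1 p.2.2 := by
        rw [Finset.sum_map]
        rfl
    _ ≤ _ := Finset.sum_le_sum_of_subset_of_nonneg (Finset.subset_univ _)
        (fun p _ _ => mul_nonneg (hg _ _) (hg _ _))

end Pool.Agent.H49.MMS
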