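import Mathlib
import Pool.Agent.H49.MMS.Law

open Finset
open scoped BigOperators

namespace Pool.Agent.H49.MMS

variable {Λ α : Type} [Fintype Λ] [DecidableEq Λ] [Fintype α] [DecidableEq α]

/-- the law of the image of one point -/
theorem law_one [Nonempty (Λ ≃ α)] (l : Λ) (G : α → ℝ) :
    𝔼 e : Λ ≃ α, G (e l) = (∑ a, G a) / (Fintype.card α : ℝ) := by
  have key : ∀ m : Λ, 𝔼 e : Λ ≃ α, G (e m) = 𝔼 e : Λ ≃ α, G (e l) := by
    intro m
    rw [← expect_pre (Equiv.swap l m) (fun e : Λ ≃ α => G (e l))]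
    refine Finset.expect_congr rfl fun e _ => ?_
    simp only [Equiv.trans_apply, Equiv.swap_apply_left]
  have : Nonempty Λ := ⟨l⟩
  calc 𝔼 e : Λ ≃ α, G (e l) = 𝔼 _m : Λ, 𝔼 e : Λ ≃ α, G (e l) := by rw [Fintype.expect_const]
    _ = 𝔼 m : Λ, 𝔼 e : Λ ≃ α, G (e m) := Finset.expect_congr rfl fun m _ => (key m).symm
    _ = 𝔼 e : Λ ≃ α, 𝔼 m : Λ, G (e m) := Finset.expect_comm _ _ _
    _ = 𝔼 _e : Λ ≃ α, 𝔼 a : α, G a := by
        refine Finset.expect_congr rfl fun e _ => ?_
        exact Fintype.expect_equiv e _ _ (fun m => rfl)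
    _ = 𝔼 a : α, G a := Fintype.expect_const _
    _ = _ := by rw [Fintype.expect_eq_sum_div_card]

/-- second moment of the sum over the image of a fixed set -/
theorem secMom [Nonempty (Λ ≃ α)] (A : Finset Λ) (v : α → ℝ) (hv : ∑ a, v a = 0)
    (hn : 2 ≤ Fintype.card α) :
    𝔼 e : Λ ≃ α, (∑ l ∈ A, v (e l)) ^ 2 =
      ((A.card : ℝ) * ((Fintype.card α : ℝ) - A.card)) /
        ((Fintype.card α : ℝ) * ((Fintype.card α : ℝ) - 1)) * ∑ a, v a ^ 2 := by
  set n : ℝ := (Fintype.card α : ℝ) with hn'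
  have hn2 : (2 : ℝ) ≤ n := by rw [hn']; exact_mod_cast hn
  have hoff : (∑ a, ∑ b, if a = b then 0 else v a * v b) = - ∑ a, v a ^ 2 := by
    have h1 : ∀ a, (∑ b, if a = b then 0 else v a * v b) = - (v a ^ 2) := by
      intro a
      have h2 : (∑ b, if a = b then 0 else v a * v b) =
          (∑ b, v a * v b) - (∑ b, if a = b then v a * v b else 0) := by
        rw [← Finset.sum_sub_distrib]
        refine Finset.sum_congr rfl fun b _ => ?_
        split_ifs <;> ring
      rw [h2, ← Finset.mul_sum, hv, Finset.sum_ite_eq]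
      simp
      ring
    rw [Finset.sum_congr rfl fun a _ => h1 a, Finset.sum_neg_distrib]
  have hE : ∀ l ∈ A, ∀ m ∈ A, 𝔼 e : Λ ≃ α, v (e l) * v (e m) =
      if l = m then (∑ a, v a ^ 2) / n else - (∑ a, v a ^ 2) / (n * (n - 1)) := by
    intro l _ m _
    split_ifs with h
    · subst h
      rw [← law_one l (fun a => v a ^ 2)]
      refine Finset.expect_congr rfl fun e _ => ?_
      ring
    · rw [law_pair h (fun a b => v a * v b), hoff]
  calc 𝔼 e : Λ ≃ α, (∑ l ∈ A, v (e l)) ^ 2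
      = 𝔼 e : Λ ≃ α, ∑ l ∈ A, ∑ m ∈ A, v (e l) * v (e m) := by
        refine Finset.expect_congr rfl fun e _ => ?_
        rw [pow_two, Finset.sum_mul_sum]
    _ = ∑ l ∈ A, 𝔼 e : Λ ≃ α, ∑ m ∈ A, v (e l) * v (e m) := Finset.expect_sum_comm _ _ _
    _ = ∑ l ∈ A, ∑ m ∈ A, 𝔼 e : Λ ≃ α, v (e l) * v (e m) :=
        Finset.sum_congr rfl fun l _ => Finset.expect_sum_comm _ _ _
    _ = ∑ l ∈ A, ∑ m ∈ A, (if l = m then (∑ a, v a ^ 2) / n
          else - (∑ a, v a ^ 2) / (n * (n - 1))) :=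
        Finset.sum_congr rfl fun l hl => Finset.sum_congr rfl fun m hm => hE l hl m hm
    _ = ∑ l ∈ A, ((∑ a, v a ^ 2) / n + ((A.card : ℝ) - 1) * (- (∑ a, v a ^ 2) / (n * (n - 1)))) := by
        refine Finset.sum_congr rfl fun l hl => ?_
        have h2 : ∑ m ∈ A, (if l = m then (∑ a, v a ^ 2) / n
          else - (∑ a, v a ^ 2) / (n * (n - 1))) =
          ∑ m ∈ A, ((- (∑ a, v a ^ 2) / (n * (n - 1))) + (if l = m then (∑ a, v a ^ 2) / n
            - (- (∑ a, v a ^ 2) / (n * (n - 1))) else 0)) := by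
          refine Finset.sum_congr rfl fun m _ => ?_
          split_ifs <;> ring
        rw [h2, Finset.sum_add_distrib, Finset.sum_ite_eq, if_pos hl, Finset.sum_const,
          nsmul_eq_mul]
        ring
    _ = _ := by
        rw [Finset.sum_const, nsmul_eq_mul]
        have : n ≠ 0 := by linarith
        have : n - 1 ≠ 0 := by linarith
        field_simp
        ring

/-- second moment of the sum over a random `m`-subset -/
theorem secMom_univ (m : ℕ) (hm : m ≤ Fintype.card α) (v : α → ℝ) (hv : ∑ a, v a = 0)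
    (hn : 2 ≤ Fintype.card α) :
    ∑ S ∈ (univ : Finset α).powersetCard m, (∑ a ∈ S, v a) ^ 2 =
      ((Fintype.card α).choose m : ℝ) * (((m : ℝ) * ((Fintype.card α : ℝ) - m)) /
        ((Fintype.card α : ℝ) * ((Fintype.card α : ℝ) - 1)) * ∑ a, v a ^ 2) := by
  obtain ⟨A, _, hA⟩ := Finset.exists_subset_card_eq (s := (univ : Finset α)) (n := m)
    (by rwa [Finset.card_univ])
  have : Nonempty (α ≃ α) := ⟨Equiv.refl α⟩
  have h1 := law_set (Λ := α) (α := α) A (fun S => (∑ a ∈ S, v a) ^ 2)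
  have h2 := secMom (Λ := α) (α := α) A v hv hn
  simp only [Finset.sum_map, Equiv.coe_toEmbedding] at h1
  rw [h2, hA, Finset.expect_eq_sum_div_card, Finset.card_powersetCard, Finset.card_univ] at h1
  have hc : ((Fintype.card α).choose m : ℝ) ≠ 0 := by
    have := Nat.choose_pos hm
    positivity
  rw [eq_div_iff hc] at h1
  rw [← h1]
  ring

/-- transport of sums over `powersetCard` of a finset to the subtype -/
theorem sum_powersetCard_subtype {ι : Type} [DecidableEq ι] (M : Finset ι) (m : ℕ)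
    (F : Finset ι → ℝ) :
    ∑ S ∈ M.powersetCard m, F S =
      ∑ S ∈ (univ : Finset M).powersetCard m, F (S.map (Function.Embedding.subtype _)) := by
  have h : M = (univ : Finset M).map (Function.Embedding.subtype _) := by
    ext i
    simp
  conv_lhs => rw [h]
  rw [Finset.powersetCard_map, Finset.sum_map]
  rfl

/-- second moment of the sum over a random `m`-subset of a finset -/
theorem secMom_fin {ι : Type} [DecidableEq ι] (M : Finset ι) (m : ℕ) (hm : m ≤ M.card)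
    (v : ι → ℝ) (hv : ∑ a ∈ M, v a = 0) (hn : 2 ≤ M.card) :
    ∑ S ∈ M.powersetCard m, (∑ a ∈ S, v a) ^ 2 =
      ((M.card).choose m : ℝ) * (((m : ℝ) * ((M.card : ℝ) - m)) /
        ((M.card : ℝ) * ((M.card : ℝ) - 1)) * ∑ a ∈ M, v a ^ 2) := by
  have h := secMom_univ (α := M) m (by simpa using hm) (fun a => v a)
    (by rw [← hv]; exact (Finset.sum_coe_sort M v)) (by simpa using hn)
  rw [Fintype.card_coe] at h
  rw [sum_powersetCard_subtype]
  simp only [Finset.sum_map, Function.Embedding.subtype_apply]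
  rw [h]
  congr 2
  exact Finset.sum_coe_sort M (fun a => v a ^ 2)

/-- Chebyshev for random `m`-subsets -/
theorem cheb {ι : Type} [DecidableEq ι] (M : Finset ι) (m : ℕ) (hm : m ≤ M.card)
    (u : ι → ℝ) (hn : 2 ≤ M.card) (t τ : ℝ) (ht : 0 ≤ t)
    (hτ : τ + t ≤ (m : ℝ) * ((∑ a ∈ M, u a) / M.card)) :
    (((M.powersetCard m).filter (fun S => ∑ a ∈ S, u a ≤ τ)).card : ℝ) * t ^ 2 ≤
      ((M.card).choose m : ℝ) * (((m : ℝ) * ((M.card : ℝ) - m)) /
        ((M.card : ℝ) * ((M.card : ℝ) - 1)) * ∑ a ∈ M, u a ^ 2) := by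
  set μ : ℝ := (∑ a ∈ M, u a) / M.card with hμ
  have hM : (0 : ℝ) < M.card := by
    have : 0 < M.card := by omega
    exact_mod_cast this
  have hM2 : (2 : ℝ) ≤ M.card := by exact_mod_cast hn
  have hμM : (M.card : ℝ) * μ = ∑ a ∈ M, u a := by
    rw [hμ]; field_simp
  have hv : ∑ a ∈ M, (u a - μ) = 0 := by
    rw [Finset.sum_sub_distrib, Finset.sum_const, nsmul_eq_mul, hμM, sub_self]
  have h := secMom_fin M m hm (fun a => u a - μ) hv hn
  have hq : ∑ a ∈ M, (u a - μ) ^ 2 ≤ ∑ a ∈ M, u a ^ 2 := by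
    have : ∑ a ∈ M, (u a - μ) ^ 2 = ∑ a ∈ M, u a ^ 2 - (M.card : ℝ) * μ ^ 2 := by
      have h1 : ∀ a ∈ M, (u a - μ) ^ 2 = u a ^ 2 - 2 * μ * u a + μ ^ 2 := fun a _ => by ring
      rw [Finset.sum_congr rfl h1, Finset.sum_add_distrib, Finset.sum_sub_distrib,
        ← Finset.mul_sum, ← hμM, Finset.sum_const, nsmul_eq_mul]
      ring
    rw [this]
    have := mul_nonneg hM.le (sq_nonneg μ)
    linarith
  have hm' : (m : ℝ) ≤ M.card := by exact_mod_cast hm
  have hcoef : (0 : ℝ) ≤ ((m : ℝ) * ((M.card : ℝ) - m)) / ((M.card : ℝ) * ((M.card : ℝ) - 1)) := by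
    refine div_nonneg (mul_nonneg (by positivity) (by linarith))
      (mul_nonneg hM.le (by linarith))
  calc (((M.powersetCard m).filter (fun S => ∑ a ∈ S, u a ≤ τ)).card : ℝ) * t ^ 2
      = ∑ S ∈ (M.powersetCard m).filter (fun S => ∑ a ∈ S, u a ≤ τ), t ^ 2 := by
        rw [Finset.sum_const, nsmul_eq_mul]
    _ ≤ ∑ S ∈ (M.powersetCard m).filter (fun S => ∑ a ∈ S, u a ≤ τ),
          (∑ a ∈ S, (u a - μ)) ^ 2 := by
        refine Finset.sum_le_sum fun S hS => ?_
        rw [Finset.mem_filter, Finset.mem_powersetCard] at hS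
        rw [Finset.sum_sub_distrib, Finset.sum_const, nsmul_eq_mul, hS.1.2]
        have h1 : t ≤ (m : ℝ) * μ - ∑ a ∈ S, u a := by linarith [hS.2]
        nlinarith
    _ ≤ ∑ S ∈ M.powersetCard m, (∑ a ∈ S, (u a - μ)) ^ 2 :=
        Finset.sum_le_sum_of_subset_of_nonneg (Finset.filter_subset _ _)
          (fun _ _ _ => sq_nonneg _)
    _ = _ := h
    _ ≤ _ := by
        refine mul_le_mul_of_nonneg_left (mul_le_mul_of_nonneg_left hq hcoef) (by positivity)

end Pool.Agent.H49.MMS
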