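import Mathlib
import Pool.Agent.H49.MMS.Mom
import Pool.Agent.H49.MMS.Grp

open Finset
open scoped BigOperators

namespace Pool.Agent.H49.MMS

/-- the index set of a random splitting: `k` pairs and `r` further points -/
abbrev Lam (k r : ℕ) : Type := (Fin k × Bool) ⊕ Fin r

theorem card_Lam (k r : ℕ) : Fintype.card (Lam k r) = 2 * k + r := by
  simp [Lam, Fintype.card_sum, Fintype.card_prod]
  ring

/-- exchange the members of the pairs `j` with `s j = true` -/
def fl {k r : ℕ} (s : Fin k → Bool) : Equiv.Perm (Lam k r) :=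
  Function.Involutive.toPerm
    (Sum.map (fun p : Fin k × Bool => (p.1, xor p.2 (s p.1))) id) (by
      intro l
      rcases l with ⟨j, b⟩ | i
      · simp [Sum.map]
      · simp [Sum.map])

theorem fl_inl {k r : ℕ} (s : Fin k → Bool) (j : Fin k) (b : Bool) :
    (fl s : Equiv.Perm (Lam k r)) (Sum.inl (j, b)) = Sum.inl (j, xor b (s j)) := rfl

theorem fl_inr {k r : ℕ} (s : Fin k → Bool) (i : Fin r) :
    (fl s : Equiv.Perm (Lam k r)) (Sum.inr i) = Sum.inr i := rfl

variable {α : Type} [Fintype α] [DecidableEq α] {k r : ℕ}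

/-- the step of the pair `j` -/
noncomputable def dl (u : α → ℝ) (e : Lam k r ≃ α) (j : Fin k) : ℝ :=
  u (e (Sum.inl (j, false))) - u (e (Sum.inl (j, true)))

/-- the difference of the sums over the two halves -/
noncomputable def DD (u : α → ℝ) (e : Lam k r ≃ α) : ℝ := ∑ j, dl u e j

omit [Fintype α] [DecidableEq α] in
theorem DD_fl (u : α → ℝ) (e : Lam k r ≃ α) (s : Fin k → Bool) :
    DD u ((fl s).trans e) = ∑ j, sg (s j) * dl u e j := by
  unfold DD
  refine Finset.sum_congr rfl fun j _ => ?_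
  unfold dl
  simp only [Equiv.trans_apply, fl_inl]
  cases s j <;> simp [sg]

theorem expect_DD (u : α → ℝ) (f : ℝ → ℝ) :
    𝔼 e : Lam k r ≃ α, f (DD u e) =
      𝔼 e : Lam k r ≃ α, 𝔼 s : Fin k → Bool, f (0 + ∑ j, sg (s j) * dl u e j) := by
  calc 𝔼 e : Lam k r ≃ α, f (DD u e)
      = 𝔼 _s : Fin k → Bool, 𝔼 e : Lam k r ≃ α, f (DD u e) := by rw [Fintype.expect_const]
    _ = 𝔼 s : Fin k → Bool, 𝔼 e : Lam k r ≃ α, f (0 + ∑ j, sg (s j) * dl u e j) := by
        refine Finset.expect_congr rfl fun s _ => ?_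
        rw [← expect_pre (fl s) (fun e : Lam k r ≃ α => f (DD u e))]
        refine Finset.expect_congr rfl fun e _ => ?_
        rw [DD_fl, zero_add]
    _ = _ := Finset.expect_comm _ _ _

/-- one half -/
def KA (k r : ℕ) (b : Bool) : Finset (Lam k r) :=
  univ.map ⟨fun j : Fin k => Sum.inl (j, b), fun i j h => by
    simp only [Sum.inl.injEq, Prod.mk.injEq, and_true] at h; exact h⟩

theorem card_KA (b : Bool) : (KA k r b).card = k := by
  simp [KA]

/-- the remaining points -/
def RA (k r : ℕ) : Finset (Lam k r) :=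
  univ.map ⟨fun i : Fin r => Sum.inr i, Sum.inr_injective⟩

theorem card_RA : (RA k r).card = r := by
  simp [RA]

theorem sum_KA (b : Bool) (f : Lam k r → ℝ) : ∑ l ∈ KA k r b, f l = ∑ j, f (Sum.inl (j, b)) := by
  simp [KA]

theorem sum_RA (f : Lam k r → ℝ) : ∑ l ∈ RA k r, f l = ∑ i, f (Sum.inr i) := by
  simp [RA]

omit [DecidableEq α] in
theorem sum_split (u : α → ℝ) (e : Lam k r ≃ α) :
    ∑ a, u a = ∑ l ∈ KA k r false, u (e l) + ∑ l ∈ KA k r true, u (e l) + ∑ l ∈ RA k r, u (e l) := by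
  rw [sum_KA, sum_KA, sum_RA, ← Equiv.sum_comp e u, Fintype.sum_sum_type, Fintype.sum_prod_type]
  congr 1
  rw [← Finset.sum_add_distrib]
  refine Finset.sum_congr rfl fun j _ => ?_
  rw [Fintype.sum_bool]
  ring

/-- the number of `k`-subsets with positive sum -/
noncomputable def goodC (x : α → ℝ) (k : ℕ) : ℝ :=
  ∑ S ∈ (univ : Finset α).powersetCard k, (if 0 < ∑ a ∈ S, x a then (1 : ℝ) else 0)

/-- both halves bad forces a small difference or a large remainder -/
theorem good_frac [Nonempty (Lam k r ≃ α)] (x u : α → ℝ) (xb W : ℝ) (hxb : 0 ≤ xb)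
    (hx : ∀ a, x a = xb + u a) (hu : ∑ a, u a = 0) (hW : 0 < W) (hn : 2 ≤ Fintype.card α)
    (hr : 1 ≤ r ∨ r = 0) :
    (1 - (𝔼 e : Lam k r ≃ α, pw W (DD u e)) -
      (r : ℝ) / Fintype.card α * (∑ a, u a ^ 2) / W ^ 2) / 2 * ((2 * k + r).choose k : ℝ) ≤
      goodC x k := by
  have e0 : Lam k r ≃ α := Classical.arbitrary _
  have hcard : Fintype.card α = 2 * k + r := by
    rw [← card_Lam k r]; exact (Fintype.card_congr e0).symm
  have hK : ∀ b, 𝔼 e : Lam k r ≃ α, (if 0 < ∑ l ∈ KA k r b, x (e l) then (1 : ℝ) else 0) =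
      goodC x k / ((2 * k + r).choose k : ℝ) := by
    intro b
    have h := law_set (Λ := Lam k r) (α := α) (KA k r b)
      (fun S => if 0 < ∑ a ∈ S, x a then (1 : ℝ) else 0)
    simp only [Finset.sum_map, Equiv.coe_toEmbedding] at h
    rw [h, card_KA, Finset.expect_eq_sum_div_card, Finset.card_powersetCard, Finset.card_univ,
      hcard]
    rfl
  have hR : 𝔼 e : Lam k r ≃ α, (if W < ∑ l ∈ RA k r, u (e l) then (1 : ℝ) else 0) ≤
      (r : ℝ) / Fintype.card α * (∑ a, u a ^ 2) / W ^ 2 := by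
    have h2 := secMom (Λ := Lam k r) (α := α) (RA k r) u hu hn
    rw [card_RA] at h2
    have h3 : 𝔼 e : Lam k r ≃ α, (if W < ∑ l ∈ RA k r, u (e l) then (1 : ℝ) else 0) ≤
        (𝔼 e : Lam k r ≃ α, (∑ l ∈ RA k r, u (e l)) ^ 2) / W ^ 2 := by
      rw [Finset.expect_div]
      refine Finset.expect_le_expect fun e _ => ?_
      rw [le_div_iff₀ (by positivity)]
      split_ifs with h
      · nlinarith
      · rw [zero_mul]; positivity
    refine h3.trans ?_
    rw [h2]
    refine div_le_div_of_nonneg_right ?_ (by positivity)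
    refine mul_le_mul_of_nonneg_right ?_ (Finset.sum_nonneg fun _ _ => sq_nonneg _)
    have hn2 : (2 : ℝ) ≤ Fintype.card α := by exact_mod_cast hn
    have hr0 : (0 : ℝ) ≤ r := by positivity
    rw [div_le_div_iff₀ (by nlinarith) (by linarith)]
    rcases hr with hr | hr
    · have hr1 : (1 : ℝ) ≤ r := by exact_mod_cast hr
      nlinarith [mul_nonneg hr0 (mul_nonneg (by linarith : (0:ℝ) ≤ Fintype.card α)
        (by linarith : (0:ℝ) ≤ (r:ℝ) - 1))]
    · subst hr; simp
  have hpt : ∀ e : Lam k r ≃ α, (1 : ℝ) ≤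
      (if 0 < ∑ l ∈ KA k r false, x (e l) then (1 : ℝ) else 0) +
      (if 0 < ∑ l ∈ KA k r true, x (e l) then (1 : ℝ) else 0) +
      pw W (DD u e) + (if W < ∑ l ∈ RA k r, u (e l) then (1 : ℝ) else 0) := by
    intro e
    have hp := pw_nonneg W (DD u e)
    by_cases h1 : 0 < ∑ l ∈ KA k r false, x (e l)
    · rw [if_pos h1]
      have : (0 : ℝ) ≤ (if 0 < ∑ l ∈ KA k r true, x (e l) then (1 : ℝ) else 0) := by
        split_ifs <;> norm_num
      have : (0 : ℝ) ≤ (if W < ∑ l ∈ RA k r, u (e l) then (1 : ℝ) else 0) := by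
        split_ifs <;> norm_num
      linarith
    by_cases h2 : 0 < ∑ l ∈ KA k r true, x (e l)
    · rw [if_pos h2, if_neg h1]
      have : (0 : ℝ) ≤ (if W < ∑ l ∈ RA k r, u (e l) then (1 : ℝ) else 0) := by
        split_ifs <;> norm_num
      linarith
    by_cases h3 : W < ∑ l ∈ RA k r, u (e l)
    · rw [if_pos h3, if_neg h1, if_neg h2]
      linarith
    rw [if_neg h1, if_neg h2, if_neg h3]
    have hxK : ∀ b, ∑ l ∈ KA k r b, x (e l) = k * xb + ∑ l ∈ KA k r b, u (e l) := by
      intro b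
      simp only [hx]
      rw [Finset.sum_add_distrib, Finset.sum_const, card_KA, nsmul_eq_mul]
    rw [hxK] at h1 h2
    push Not at h1 h2 h3
    have hsp := sum_split u e
    rw [hu] at hsp
    have hD : DD u e = ∑ l ∈ KA k r false, u (e l) - ∑ l ∈ KA k r true, u (e l) := by
      unfold DD dl
      rw [Finset.sum_sub_distrib, sum_KA, sum_KA]
    have hkx : 0 ≤ (k : ℝ) * xb := by positivity
    have : pw W (DD u e) = 1 := by
      unfold pw
      rw [if_pos]
      rw [hD, abs_le]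
      constructor <;> linarith
    rw [this]
    norm_num
  have hsum : (1 : ℝ) ≤ goodC x k / ((2 * k + r).choose k : ℝ) +
      goodC x k / ((2 * k + r).choose k : ℝ) + (𝔼 e : Lam k r ≃ α, pw W (DD u e)) +
      𝔼 e : Lam k r ≃ α, (if W < ∑ l ∈ RA k r, u (e l) then (1 : ℝ) else 0) := by
    rw [← hK false]
    nth_rewrite 2 [hK false]
    rw [← hK true, ← Finset.expect_add_distrib, ← Finset.expect_add_distrib,
      ← Finset.expect_add_distrib]
    calc (1 : ℝ) = 𝔼 _e : Lam k r ≃ α, (1 : ℝ) := (Fintype.expect_const _).symm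
      _ ≤ _ := Finset.expect_le_expect fun e _ => hpt e
  have hch : (0 : ℝ) < ((2 * k + r).choose k : ℝ) := by
    exact_mod_cast Nat.choose_pos (by omega)
  have : (1 - (𝔼 e : Lam k r ≃ α, pw W (DD u e)) -
      (r : ℝ) / Fintype.card α * (∑ a, u a ^ 2) / W ^ 2) / 2 ≤
      goodC x k / ((2 * k + r).choose k : ℝ) := by linarith
  rw [le_div_iff₀ hch] at this
  exact this

end Pool.Agent.H49.MMS
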