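import Mathlib
import Pool.Agent.H49.MMS.Bij

open Finset
open scoped BigOperators

namespace Pool.Agent.H49.MMS

variable {α : Type} [Fintype α] [DecidableEq α] {k r : ℕ}

/-- the point `a` lies in a pair whose other member is small -/
noncomputable def Nc (u : α → ℝ) (W : ℝ) (a : α) (e : Lam k r ≃ α) : ℝ :=
  ∑ p : Fin k × Bool, (if e (Sum.inl p) = a ∧ ¬ W < |u (e (Sum.inl (p.1, !p.2)))| then (1 : ℝ)
    else 0)

omit [Fintype α] in
theorem Nc_le_one (u : α → ℝ) (W : ℝ) (a : α) (e : Lam k r ≃ α) : Nc u W a e ≤ 1 := by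
  unfold Nc
  rw [Finset.sum_boole]
  have : (univ.filter (fun p : Fin k × Bool =>
      e (Sum.inl p) = a ∧ ¬ W < |u (e (Sum.inl (p.1, !p.2)))|)).card ≤ 1 := by
    rw [Finset.card_le_one]
    intro p hp q hq
    have h1 := (Finset.mem_filter.1 hp).2.1
    have h2 := (Finset.mem_filter.1 hq).2.1
    have := e.injective (h1.trans h2.symm)
    exact Sum.inl_injective this
  exact_mod_cast this

omit [Fintype α] in
theorem Nc_cases (u : α → ℝ) (W : ℝ) (a : α) (e : Lam k r ≃ α) :
    Nc u W a e = 0 ∨ ∃ p : Fin k × Bool, e (Sum.inl p) = a ∧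
      ¬ W < |u (e (Sum.inl (p.1, !p.2)))| := by
  by_cases h : Nc u W a e = 0
  · exact Or.inl h
  · right
    obtain ⟨p, _, hp⟩ := Finset.exists_ne_zero_of_sum_ne_zero h
    exact ⟨p, by by_contra hc; exact hp (if_neg hc)⟩

theorem Nc_expect [Nonempty (Lam k r ≃ α)] (u : α → ℝ) (W : ℝ) (a : α) (ha : W < |u a|) :
    𝔼 e : Lam k r ≃ α, Nc u W a e = 2 * k * ((Fintype.card α : ℝ) -
      (univ.filter (fun a => W < |u a|)).card) /
        ((Fintype.card α : ℝ) * ((Fintype.card α : ℝ) - 1)) := by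
  unfold Nc
  rw [Finset.expect_sum_comm]
  have h1 : ∀ p : Fin k × Bool, (𝔼 e : Lam k r ≃ α,
      (if e (Sum.inl p) = a ∧ ¬ W < |u (e (Sum.inl (p.1, !p.2)))| then (1 : ℝ) else 0)) =
      ((Fintype.card α : ℝ) - (univ.filter (fun a => W < |u a|)).card) /
        ((Fintype.card α : ℝ) * ((Fintype.card α : ℝ) - 1)) := by
    intro p
    have hne : (Sum.inl p : Lam k r) ≠ Sum.inl (p.1, !p.2) := by
      intro h
      have := congrArg Prod.snd (Sum.inl_injective h)
      simp at this
    rw [law_pair hne (fun x y => if x = a ∧ ¬ W < |u y| then (1 : ℝ) else 0)]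
    congr 1
    have h2 : ∀ x, (∑ y, if x = y then (0 : ℝ) else if x = a ∧ ¬ W < |u y| then (1 : ℝ) else 0) =
        if x = a then (∑ y, if ¬ W < |u y| then (1 : ℝ) else 0) else 0 := by
      intro x
      split_ifs with hx
      · refine Finset.sum_congr rfl fun y _ => ?_
        by_cases hxy : x = y
        · rw [if_pos hxy, if_neg]
          rw [← hxy, hx]
          exact not_not.2 ha
        · rw [if_neg hxy]
          simp [hx]
      · refine Finset.sum_eq_zero fun y _ => ?_
        simp [hx]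
    rw [Finset.sum_congr rfl fun x _ => h2 x, Finset.sum_ite_eq', if_pos (Finset.mem_univ a),
      Finset.sum_boole]
    have h3 := Finset.card_filter_add_card_filter_not (s := (univ : Finset α))
      (fun a => W < |u a|)
    rw [Finset.card_univ] at h3
    have h4 : ((univ.filter (fun a => W < |u a|)).card : ℝ) +
        ((univ.filter (fun a => ¬ W < |u a|)).card : ℝ) = Fintype.card α := by
      exact_mod_cast h3
    linarith
  rw [Finset.sum_congr rfl fun p _ => h1 p, Finset.sum_const, Finset.card_univ,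
    Fintype.card_prod, Fintype.card_fin, Fintype.card_bool, nsmul_eq_mul]
  push_cast
  ring

omit [Fintype α] [DecidableEq α] in
theorem dl_big (u : α → ℝ) (W : ℝ) (a : α) (ha : 2 * W < |u a|) (e : Lam k r ≃ α)
    (p : Fin k × Bool) (h1 : e (Sum.inl p) = a) (h2 : ¬ W < |u (e (Sum.inl (p.1, !p.2)))|) :
    W < |dl u e p.1| := by
  push Not at h2
  obtain ⟨j, b⟩ := p
  unfold dl
  cases b
  · simp only [Bool.not_false] at h2
    rw [h1]
    have := abs_sub_abs_le_abs_sub (u a) (u (e (Sum.inl (j, true))))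
    linarith
  · simp only [Bool.not_true] at h2
    rw [h1, abs_sub_comm]
    have := abs_sub_abs_le_abs_sub (u a) (u (e (Sum.inl (j, false))))
    linarith

/-- one large entry -/
theorem ac_one [Nonempty (Lam k r ≃ α)] (u : α → ℝ) (W : ℝ) (hW : 0 < W) (a : α)
    (ha : 2 * W < |u a|) :
    𝔼 e : Lam k r ≃ α, pw W (DD u e) ≤ 1 / 2 + (1 - 2 * k * ((Fintype.card α : ℝ) -
      (univ.filter (fun a => W < |u a|)).card) /
        ((Fintype.card α : ℝ) * ((Fintype.card α : ℝ) - 1))) := by
  rw [expect_DD, ← Nc_expect (k := k) (r := r) u W a (by linarith)]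
  have hpt : ∀ e : Lam k r ≃ α, 𝔼 s : Fin k → Bool, pw W (0 + ∑ j, sg (s j) * dl u e j) ≤
      1 / 2 + (1 - Nc u W a e) := by
    intro e
    rcases Nc_cases u W a e with h | ⟨p, h1, h2⟩
    · rw [h]
      calc _ ≤ 𝔼 _s : Fin k → Bool, (1 : ℝ) := Finset.expect_le_expect fun s _ => pw_le_one _ _
        _ = 1 := Fintype.expect_const _
        _ ≤ _ := by norm_num
    · have := one_big (dl u e) 0 W p.1 (dl_big u W a ha e p h1 h2)
      have h3 := Nc_le_one u W a e
      linarith
  calc _ ≤ 𝔼 e : Lam k r ≃ α, (1 / 2 + (1 - Nc u W a e)) :=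
        Finset.expect_le_expect fun e _ => hpt e
    _ = _ := by
        rw [Finset.expect_add_distrib, Finset.expect_sub_distrib, Fintype.expect_const,
          Fintype.expect_const]

/-- three large entries -/
theorem ac_three [Nonempty (Lam k r ≃ α)] (u : α → ℝ) (W : ℝ) (hW : 0 < W) (a b c : α)
    (hab : a ≠ b) (hac : a ≠ c) (hbc : b ≠ c)
    (ha : 2 * W < |u a|) (hb : 2 * W < |u b|) (hc : 2 * W < |u c|) :
    𝔼 e : Lam k r ≃ α, pw W (DD u e) ≤ 3 / 8 + 3 * (1 - 2 * k * ((Fintype.card α : ℝ) -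
      (univ.filter (fun a => W < |u a|)).card) /
        ((Fintype.card α : ℝ) * ((Fintype.card α : ℝ) - 1))) := by
  have hpt : ∀ e : Lam k r ≃ α, 𝔼 s : Fin k → Bool, pw W (0 + ∑ j, sg (s j) * dl u e j) ≤
      3 / 8 + ((1 - Nc u W a e) + (1 - Nc u W b e) + (1 - Nc u W c e)) := by
    intro e
    have n1 := Nc_le_one u W a e
    have n2 := Nc_le_one u W b e
    have n3 := Nc_le_one u W c e
    have htriv : 𝔼 s : Fin k → Bool, pw W (0 + ∑ j, sg (s j) * dl u e j) ≤ 1 := by
      calc _ ≤ 𝔼 _s : Fin k → Bool, (1 : ℝ) := Finset.expect_le_expect fun s _ => pw_le_one _ _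
        _ = 1 := Fintype.expect_const _
    rcases Nc_cases u W a e with h | ⟨p, p1, p2⟩
    · rw [h]; linarith
    rcases Nc_cases u W b e with h | ⟨q, q1, q2⟩
    · rw [h]; linarith
    rcases Nc_cases u W c e with h | ⟨t, t1, t2⟩
    · rw [h]; linarith
    have hne : ∀ (x y : α) (p q : Fin k × Bool), x ≠ y → 2 * W < |u y| →
        e (Sum.inl p) = x → ¬ W < |u (e (Sum.inl (p.1, !p.2)))| → e (Sum.inl q) = y →
        p.1 ≠ q.1 := by
      intro x y p q hxy hy hp hp2 hq h
      obtain ⟨j, b⟩ := p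
      obtain ⟨j', b'⟩ := q
      simp only at h
      subst h
      by_cases hb : b = b'
      · subst hb
        exact hxy (hp.symm.trans hq)
      · have hb' : b' = !b := by
          cases b <;> cases b' <;> simp_all
        rw [hb'] at hq
        simp only at hp2
        rw [hq] at hp2
        exact hp2 (by linarith)
    have := three_big (dl u e) 0 W hW.le p.1 q.1 t.1 (hne a b p q hab hb p1 p2 q1)
      (hne a c p t hac hc p1 p2 t1) (hne b c q t hbc hc q1 q2 t1)
      (dl_big u W a ha e p p1 p2) (dl_big u W b hb e q q1 q2) (dl_big u W c hc e t t1 t2)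
    linarith
  rw [expect_DD]
  calc _ ≤ 𝔼 e : Lam k r ≃ α, (3 / 8 + ((1 - Nc u W a e) + (1 - Nc u W b e) +
        (1 - Nc u W c e))) := Finset.expect_le_expect fun e _ => hpt e
    _ = _ := by
        rw [Finset.expect_add_distrib, Finset.expect_add_distrib, Finset.expect_add_distrib,
          Finset.expect_sub_distrib, Finset.expect_sub_distrib, Finset.expect_sub_distrib,
          Fintype.expect_const, Fintype.expect_const,
          Nc_expect (k := k) (r := r) u W a (by linarith),
          Nc_expect (k := k) (r := r) u W b (by linarith),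
          Nc_expect (k := k) (r := r) u W c (by linarith)]
        ring

/-- squared difference of two small entries -/
noncomputable def gg (u : α → ℝ) (W : ℝ) (x y : α) : ℝ :=
  if 2 * W < |u x| ∨ 2 * W < |u y| then 0 else (u x - u y) ^ 2

omit [Fintype α] [DecidableEq α] in
theorem gg_nonneg (u : α → ℝ) (W : ℝ) (x y : α) : 0 ≤ gg u W x y := by
  unfold gg; split_ifs
  · exact le_rfl
  · positivity

omit [Fintype α] [DecidableEq α] in
theorem gg_le (u : α → ℝ) (W : ℝ) (x y : α) : gg u W x y ≤ 16 * W ^ 2 := by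
  unfold gg; split_ifs with h
  · positivity
  · push Not at h
    have h1 := abs_le.1 h.1
    have h2 := abs_le.1 h.2
    nlinarith

/-- the quadratic variation of the small pairs -/
noncomputable def QQ (u : α → ℝ) (W : ℝ) (e : Lam k r ≃ α) : ℝ :=
  ∑ j, gg u W (e (Sum.inl (j, false))) (e (Sum.inl (j, true)))

theorem QQ_expect [Nonempty (Lam k r ≃ α)] (u : α → ℝ) (W : ℝ) :
    𝔼 e : Lam k r ≃ α, QQ u W e = k * (∑ x, ∑ y, gg u W x y) /
        ((Fintype.card α : ℝ) * ((Fintype.card α : ℝ) - 1)) := by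
  unfold QQ
  rw [Finset.expect_sum_comm]
  have h1 : ∀ j : Fin k, (𝔼 e : Lam k r ≃ α,
      gg u W (e (Sum.inl (j, false))) (e (Sum.inl (j, true)))) =
      (∑ x, ∑ y, gg u W x y) / ((Fintype.card α : ℝ) * ((Fintype.card α : ℝ) - 1)) := by
    intro j
    rw [law_pair (l := (Sum.inl (j, false) : Lam k r)) (m := Sum.inl (j, true)) (by simp)
      (gg u W)]
    congr 1
    refine Finset.sum_congr rfl fun x _ => Finset.sum_congr rfl fun y _ => ?_
    split_ifs with h
    · subst h; unfold gg; simp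
    · rfl
  rw [Finset.sum_congr rfl fun j _ => h1 j, Finset.sum_const, Finset.card_univ,
    Fintype.card_fin, nsmul_eq_mul]
  ring

theorem QQ_sq [Nonempty (Lam k r ≃ α)] (u : α → ℝ) (W : ℝ) :
    𝔼 e : Lam k r ≃ α, QQ u W e ^ 2 ≤
      16 * W ^ 2 * (k * (∑ x, ∑ y, gg u W x y) /
        ((Fintype.card α : ℝ) * ((Fintype.card α : ℝ) - 1))) +
      k * (k - 1) * ((∑ x, ∑ y, gg u W x y) ^ 2 /
        ((Fintype.card α : ℝ) * ((Fintype.card α : ℝ) - 1) * ((Fintype.card α : ℝ) - 2) *
          ((Fintype.card α : ℝ) - 3))) := by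
  set G2 : ℝ := ∑ x, ∑ y, gg u W x y with hG2
  set n : ℝ := (Fintype.card α : ℝ) with hn
  have h1 : ∀ j : Fin k, (𝔼 e : Lam k r ≃ α,
      gg u W (e (Sum.inl (j, false))) (e (Sum.inl (j, true)))) = G2 / (n * (n - 1)) := by
    intro j
    rw [law_pair (l := (Sum.inl (j, false) : Lam k r)) (m := Sum.inl (j, true)) (by simp)
      (gg u W)]
    congr 1
    refine Finset.sum_congr rfl fun x _ => Finset.sum_congr rfl fun y _ => ?_
    split_ifs with h
    · subst h; unfold gg; simp
    · rfl
  have h2 : ∀ j l : Fin k, 𝔼 e : Lam k r ≃ α,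
      gg u W (e (Sum.inl (j, false))) (e (Sum.inl (j, true))) *
      gg u W (e (Sum.inl (l, false))) (e (Sum.inl (l, true))) ≤
      if j = l then 16 * W ^ 2 * (G2 / (n * (n - 1))) else
        G2 ^ 2 / (n * (n - 1) * (n - 2) * (n - 3)) := by
    intro j l
    split_ifs with h
    · subst h
      rw [← h1 j, Finset.mul_expect]
      refine Finset.expect_le_expect fun e _ => ?_
      exact mul_le_mul_of_nonneg_right (gg_le u W _ _) (gg_nonneg u W _ _)
    · exact law_four (a := (Sum.inl (j, false) : Lam k r)) (b := Sum.inl (j, true))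
        (c := Sum.inl (l, false)) (d := Sum.inl (l, true)) (by simp) (by simp [h])
        (by simp [h]) (by simp [h]) (by simp [h]) (by simp) (gg u W) (gg_nonneg u W)
  calc 𝔼 e : Lam k r ≃ α, QQ u W e ^ 2
      = 𝔼 e : Lam k r ≃ α, ∑ j, ∑ l, gg u W (e (Sum.inl (j, false))) (e (Sum.inl (j, true))) *
      gg u W (e (Sum.inl (l, false))) (e (Sum.inl (l, true))) := by
        refine Finset.expect_congr rfl fun e _ => ?_
        unfold QQ
        rw [pow_two, Finset.sum_mul_sum]
    _ = ∑ j, ∑ l, 𝔼 e : Lam k r ≃ α, gg u W (e (Sum.inl (j, false))) (e (Sum.inl (j, true))) *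
      gg u W (e (Sum.inl (l, false))) (e (Sum.inl (l, true))) := by
        rw [Finset.expect_sum_comm]
        exact Finset.sum_congr rfl fun j _ => Finset.expect_sum_comm _ _ _
    _ ≤ ∑ j : Fin k, ∑ l : Fin k, (if j = l then 16 * W ^ 2 * (G2 / (n * (n - 1))) else
        G2 ^ 2 / (n * (n - 1) * (n - 2) * (n - 3))) :=
        Finset.sum_le_sum fun j _ => Finset.sum_le_sum fun l _ => h2 j l
    _ = ∑ _j : Fin k, (16 * W ^ 2 * (G2 / (n * (n - 1))) +
        ((k : ℝ) - 1) * (G2 ^ 2 / (n * (n - 1) * (n - 2) * (n - 3)))) := by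
        refine Finset.sum_congr rfl fun j _ => ?_
        have h3 : ∀ l : Fin k, (if j = l then 16 * W ^ 2 * (G2 / (n * (n - 1))) else
          G2 ^ 2 / (n * (n - 1) * (n - 2) * (n - 3))) =
          G2 ^ 2 / (n * (n - 1) * (n - 2) * (n - 3)) + (if j = l then
            16 * W ^ 2 * (G2 / (n * (n - 1))) - G2 ^ 2 / (n * (n - 1) * (n - 2) * (n - 3))
            else 0) := by
          intro l
          split_ifs <;> ring
        rw [Finset.sum_congr rfl fun l _ => h3 l, Finset.sum_add_distrib, Finset.sum_ite_eq,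
          if_pos (Finset.mem_univ _), Finset.sum_const, Finset.card_univ, Fintype.card_fin,
          nsmul_eq_mul]
        ring
    _ = _ := by
        rw [Finset.sum_const, Finset.card_univ, Fintype.card_fin, nsmul_eq_mul]
        ring

/-- large quadratic variation gives anticoncentration -/
theorem QQ_use (u : α → ℝ) (W : ℝ) (hW : 0 < W) (e : Lam k r ≃ α)
    (hQ : 1200 * W ^ 2 ≤ QQ u W e) :
    𝔼 s : Fin k → Bool, pw W (0 + ∑ j, sg (s j) * dl u e j) ≤ 47 / 125 := by
  refine spreadR (univ.filter (fun j : Fin k => ¬ (2 * W < |u (e (Sum.inl (j, false)))| ∨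
    2 * W < |u (e (Sum.inl (j, true)))|))) (dl u e) 0 W hW ?_ ?_
  · intro j hj
    have h := (Finset.mem_filter.1 hj).2
    have := gg_le u W (e (Sum.inl (j, false))) (e (Sum.inl (j, true)))
    unfold gg at this
    rw [if_neg h] at this
    exact this
  · refine hQ.trans (le_of_eq ?_)
    unfold QQ
    rw [Finset.sum_filter]
    refine Finset.sum_congr rfl fun j _ => ?_
    unfold gg dl
    by_cases h : 2 * W < |u (e (Sum.inl (j, false)))| ∨ 2 * W < |u (e (Sum.inl (j, true)))|
    · rw [if_pos h, if_neg (not_not.2 h)]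
    · rw [if_neg h, if_pos h]

/-- lower bound of the total of `gg` -/
theorem G2_eq (u : α → ℝ) (W : ℝ) (hu : ∑ a, u a = 0) :
    ∑ x, ∑ y, gg u W x y =
      2 * ((Fintype.card α : ℝ) - (univ.filter (fun a => 2 * W < |u a|)).card) *
        (∑ a ∈ univ.filter (fun a => ¬ 2 * W < |u a|), u a ^ 2) -
      2 * (∑ a ∈ univ.filter (fun a => 2 * W < |u a|), u a) ^ 2 := by
  set N : Finset α := univ.filter (fun a => ¬ 2 * W < |u a|) with hN
  set P : Finset α := univ.filter (fun a => 2 * W < |u a|) with hP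
  have hcard : (N.card : ℝ) = (Fintype.card α : ℝ) - P.card := by
    have h3 := Finset.card_filter_add_card_filter_not (s := (univ : Finset α))
      (fun a => 2 * W < |u a|)
    rw [Finset.card_univ] at h3
    have h4 : (P.card : ℝ) + (N.card : ℝ) = Fintype.card α := by exact_mod_cast h3
    linarith
  have hsum : ∑ a ∈ P, u a = - ∑ a ∈ N, u a := by
    have := Finset.sum_filter_add_sum_filter_not (univ : Finset α) (fun a => 2 * W < |u a|) u
    rw [hu] at this
    linarith
  have h1 : ∑ x, ∑ y, gg u W x y = ∑ x ∈ N, ∑ y ∈ N, (u x - u y) ^ 2 := by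
    rw [hN, Finset.sum_filter]
    refine Finset.sum_congr rfl fun x _ => ?_
    by_cases hx : 2 * W < |u x|
    · rw [if_neg (not_not.2 hx)]
      refine Finset.sum_eq_zero fun y _ => ?_
      unfold gg
      rw [if_pos (Or.inl hx)]
    · rw [if_pos hx, Finset.sum_filter]
      refine Finset.sum_congr rfl fun y _ => ?_
      unfold gg
      by_cases hy : 2 * W < |u y|
      · rw [if_pos (Or.inr hy), if_neg (not_not.2 hy)]
      · rw [if_neg (by push Not; push Not at hx hy; exact ⟨hx, hy⟩), if_pos hy]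
  rw [h1, hsum, ← hcard]
  have h2 : ∀ x ∈ N, ∑ y ∈ N, (u x - u y) ^ 2 =
      (N.card : ℝ) * u x ^ 2 - 2 * u x * (∑ y ∈ N, u y) + ∑ y ∈ N, u y ^ 2 := by
    intro x _
    have h3 : ∀ y ∈ N, (u x - u y) ^ 2 = u x ^ 2 - 2 * u x * u y + u y ^ 2 := fun y _ => by ring
    rw [Finset.sum_congr rfl h3, Finset.sum_add_distrib, Finset.sum_sub_distrib,
      Finset.sum_const, nsmul_eq_mul, ← Finset.mul_sum]
  rw [Finset.sum_congr rfl h2, Finset.sum_add_distrib, Finset.sum_sub_distrib,
    Finset.sum_const, nsmul_eq_mul, ← Finset.mul_sum, ← Finset.sum_mul, ← Finset.mul_sum]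
  ring

end Pool.Agent.H49.MMS
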