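import Mathlib
import Pool.Agent.H49.MMS.AC

open Finset
open scoped BigOperators

namespace Pool.Agent.H49.MMS

variable {α : Type} [Fintype α] [DecidableEq α] {k r : ℕ}

/-- anticoncentration when the small entries carry a large variance -/
theorem ac_spread [Nonempty (Lam k r ≃ α)] (u : α → ℝ) (W : ℝ) (hW : 0 < W)
    (hn : (18 : ℝ) ≤ Fintype.card α) (μ : ℝ)
    (hμ : μ = k * (∑ x, ∑ y, gg u W x y) /
        ((Fintype.card α : ℝ) * ((Fintype.card α : ℝ) - 1)))
    (hμs : 1200 * W ^ 2 < μ) :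
    𝔼 e : Lam k r ≃ α, pw W (DD u e) ≤
      47 / 125 + (16 * W ^ 2 * μ + 5 / Fintype.card α * μ ^ 2) / (μ - 1200 * W ^ 2) ^ 2 := by
  set n : ℝ := (Fintype.card α : ℝ) with hn'
  have h1 := QQ_expect (k := k) (r := r) u W
  have h2 := QQ_sq (k := k) (r := r) u W
  rw [← hn', ← hμ] at h1 h2
  have h3 : (k : ℝ) * (k - 1) * ((∑ x, ∑ y, gg u W x y) ^ 2 / (n * (n - 1) * (n - 2) * (n - 3))) ≤
      (1 + 5 / n) * μ ^ 2 := by
    have hG : (∑ x, ∑ y, gg u W x y) = μ * (n * (n - 1)) / k ∨ k = 0 := by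
      by_cases hk : k = 0
      · exact Or.inr hk
      · left
        rw [hμ]
        have : (k : ℝ) ≠ 0 := by exact_mod_cast hk
        have : n ≠ 0 := by linarith
        have : n - 1 ≠ 0 := by linarith
        field_simp
    rcases hG with hG | hk
    · by_cases hk : k = 0
      · subst hk
        have : μ = 0 := by rw [hμ]; simp
        rw [this]; simp
      have hk1 : (1 : ℝ) ≤ k := by exact_mod_cast Nat.one_le_iff_ne_zero.2 hk
      rw [hG]
      have e1 : (k : ℝ) * (k - 1) * ((μ * (n * (n - 1)) / k) ^ 2 /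
          (n * (n - 1) * (n - 2) * (n - 3))) =
          ((k - 1) / k) * ((n * (n - 1)) / ((n - 2) * (n - 3))) * μ ^ 2 := by
        have : (k : ℝ) ≠ 0 := by linarith
        have : n ≠ 0 := by linarith
        have : n - 1 ≠ 0 := by linarith
        have : n - 2 ≠ 0 := by linarith
        have : n - 3 ≠ 0 := by linarith
        field_simp
      rw [e1]
      refine mul_le_mul_of_nonneg_right ?_ (sq_nonneg _)
      have e2 : ((k : ℝ) - 1) / k ≤ 1 := by
        rw [div_le_one (by linarith)]; linarith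
      have e3 : (n * (n - 1)) / ((n - 2) * (n - 3)) ≤ 1 + 5 / n := by
        have : 1 + 5 / n = (n + 5) / n := by
          have : n ≠ 0 := by linarith
          field_simp
        rw [this, div_le_div_iff₀ (by nlinarith) (by linarith)]
        nlinarith
      have e4 : 0 ≤ (n * (n - 1)) / ((n - 2) * (n - 3)) := by
        refine div_nonneg (by nlinarith) (by nlinarith)
      have e5 : 0 ≤ ((k : ℝ) - 1) / k := div_nonneg (by linarith) (by linarith)
      nlinarith
    · have : μ = 0 := by rw [hμ, hk]; simp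
      rw [this, hk]; simp
  have h4 : 𝔼 e : Lam k r ≃ α, QQ u W e ^ 2 ≤ 16 * W ^ 2 * μ + (1 + 5 / n) * μ ^ 2 := by
    linarith
  have hvar : 𝔼 e : Lam k r ≃ α, (QQ u W e - μ) ^ 2 ≤ 16 * W ^ 2 * μ + 5 / n * μ ^ 2 := by
    have h5 : 𝔼 e : Lam k r ≃ α, (QQ u W e - μ) ^ 2 =
        (𝔼 e : Lam k r ≃ α, QQ u W e ^ 2) - 2 * μ * (𝔼 e : Lam k r ≃ α, QQ u W e) + μ ^ 2 := by
      rw [Finset.mul_expect, ← Finset.expect_sub_distrib,
        ← Fintype.expect_const (ι := Lam k r ≃ α) (μ ^ 2), ← Finset.expect_add_distrib]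
      refine Finset.expect_congr rfl fun e _ => ?_
      ring
    rw [h5, h1]
    nlinarith
  have hd : 0 < μ - 1200 * W ^ 2 := by linarith
  have hcheb : 𝔼 e : Lam k r ≃ α, (if QQ u W e < 1200 * W ^ 2 then (1 : ℝ) else 0) ≤
      (16 * W ^ 2 * μ + 5 / n * μ ^ 2) / (μ - 1200 * W ^ 2) ^ 2 := by
    rw [le_div_iff₀ (by positivity), Finset.expect_mul]
    refine le_trans (Finset.expect_le_expect fun e _ => ?_) hvar
    split_ifs with h
    · nlinarith
    · rw [zero_mul]; positivity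
  have hpt : ∀ e : Lam k r ≃ α, 𝔼 s : Fin k → Bool, pw W (0 + ∑ j, sg (s j) * dl u e j) ≤
      47 / 125 + (if QQ u W e < 1200 * W ^ 2 then (1 : ℝ) else 0) := by
    intro e
    split_ifs with h
    · calc _ ≤ 𝔼 _s : Fin k → Bool, (1 : ℝ) := Finset.expect_le_expect fun s _ => pw_le_one _ _
        _ = 1 := Fintype.expect_const _
        _ ≤ _ := by norm_num
    · push Not at h
      have := QQ_use u W hW e h
      linarith
  rw [expect_DD]
  calc _ ≤ 𝔼 e : Lam k r ≃ α, (47 / 125 + (if QQ u W e < 1200 * W ^ 2 then (1 : ℝ) else 0)) :=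
        Finset.expect_le_expect fun e _ => hpt e
    _ = 47 / 125 + 𝔼 e : Lam k r ≃ α, (if QQ u W e < 1200 * W ^ 2 then (1 : ℝ) else 0) := by
        rw [Finset.expect_add_distrib, Fintype.expect_const]
    _ ≤ _ := by linarith

/-- numerical form -/
theorem ac_spread_num [Nonempty (Lam k r ≃ α)] (u : α → ℝ) (hu : ∑ a, u a = 0)
    (hu2 : ∑ a, u a ^ 2 = 1) (hn : (1000000 : ℝ) ≤ Fintype.card α)
    (hk : (4999 / 10000 : ℝ) * Fintype.card α ≤ k)
    (hh : (univ.filter (fun a => 2 * (1 / 300 : ℝ) < |u a|)).card ≤ 2)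
    (hV : (1 / 30 : ℝ) ≤ ∑ a ∈ univ.filter (fun a => ¬ 2 * (1 / 300 : ℝ) < |u a|), u a ^ 2) :
    𝔼 e : Lam k r ≃ α, pw (1 / 300) (DD u e) ≤ 49 / 125 := by
  set n : ℝ := (Fintype.card α : ℝ) with hn'
  set μ : ℝ := k * (∑ x, ∑ y, gg u (1 / 300) x y) / (n * (n - 1)) with hμ
  have hG := G2_eq u (1 / 300) hu
  rw [← hn'] at hG
  set A : Finset α := univ.filter (fun a => 2 * (1 / 300 : ℝ) < |u a|) with hA
  set V : ℝ := ∑ a ∈ univ.filter (fun a => ¬ 2 * (1 / 300 : ℝ) < |u a|), u a ^ 2 with hVdef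
  have hA2 : (A.card : ℝ) ≤ 2 := by exact_mod_cast hh
  have hsplit : ∑ a ∈ A, u a ^ 2 + V = 1 := by
    rw [← hu2]
    exact Finset.sum_filter_add_sum_filter_not univ _ _
  have hcs : (∑ a ∈ A, u a) ^ 2 ≤ 2 := by
    have h1 : (∑ a ∈ A, u a) ^ 2 ≤ A.card * ∑ a ∈ A, u a ^ 2 := sq_sum_le_card_mul_sum_sq
    have h2 : ∑ a ∈ A, u a ^ 2 ≤ 1 := by linarith
    have h3 : 0 ≤ ∑ a ∈ A, u a ^ 2 := Finset.sum_nonneg fun _ _ => sq_nonneg _
    nlinarith
  have hG2 : (n - 2) / 15 - 4 ≤ ∑ x, ∑ y, gg u (1 / 300) x y := by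
    rw [hG]
    nlinarith
  have hμ1 : (333 / 10000 : ℝ) ≤ μ := by
    rw [hμ, le_div_iff₀ (by nlinarith)]
    have h1 : 0 ≤ (n - 2) / 15 - 4 := by linarith
    have h2 : (4999 / 10000 : ℝ) * n * ((n - 2) / 15 - 4) ≤
        k * ∑ x, ∑ y, gg u (1 / 300) x y :=
      mul_le_mul hk hG2 h1 (by positivity)
    refine le_trans ?_ h2
    nlinarith
  have h := ac_spread (k := k) (r := r) u (1 / 300) (by norm_num)
    (by rw [← hn']; linarith) μ hμ (by norm_num; linarith)
  refine h.trans ?_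
  rw [← hn']
  have hs : (1200 : ℝ) * (1 / 300) ^ 2 = 1 / 75 := by norm_num
  rw [hs]
  have hd : 0 < μ - 1 / 75 := by linarith
  have h5 : (16 * (1 / 300) ^ 2 * μ + 5 / n * μ ^ 2) / (μ - 1 / 75) ^ 2 ≤ 2 / 125 := by
    rw [div_le_iff₀ (by positivity)]
    have : 5 / n ≤ 5 / 1000000 := by
      exact div_le_div_of_nonneg_left (by norm_num) (by norm_num) hn
    have : 5 / n * μ ^ 2 ≤ 5 / 1000000 * μ ^ 2 := mul_le_mul_of_nonneg_right this (sq_nonneg _)
    nlinarith
  linarith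

/-- number of large entries -/
theorem card_B (u : α → ℝ) (hu2 : ∑ a, u a ^ 2 = 1) :
    ((univ.filter (fun a => (1 / 300 : ℝ) < |u a|)).card : ℝ) ≤ 90000 := by
  have h : ((univ.filter (fun a => (1 / 300 : ℝ) < |u a|)).card : ℝ) * (1 / 90000) ≤ 1 := by
    calc ((univ.filter (fun a => (1 / 300 : ℝ) < |u a|)).card : ℝ) * (1 / 90000)
        = ∑ a ∈ univ.filter (fun a => (1 / 300 : ℝ) < |u a|), (1 / 90000 : ℝ) := by
          rw [Finset.sum_const, nsmul_eq_mul]
      _ ≤ ∑ a ∈ univ.filter (fun a => (1 / 300 : ℝ) < |u a|), u a ^ 2 := by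
          refine Finset.sum_le_sum fun a ha => ?_
          have := (Finset.mem_filter.1 ha).2
          rw [← sq_abs]
          nlinarith
      _ ≤ ∑ a, u a ^ 2 := Finset.sum_le_sum_of_subset_of_nonneg (Finset.filter_subset _ _)
          (fun _ _ _ => sq_nonneg _)
      _ = 1 := hu2
  linarith

/-- the probability loss -/
theorem loss (hcard : Fintype.card α = 2 * k + r) (b : ℝ) (hb : b ≤ 90000)
    (hn : (3900000 : ℝ) ≤ Fintype.card α) (hr : (r : ℝ) ≤ 22 / 10000000 * k) :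
    1 - 2 * k * ((Fintype.card α : ℝ) - b) / ((Fintype.card α : ℝ) * ((Fintype.card α : ℝ) - 1)) ≤
      232 / 10000 := by
  set n : ℝ := (Fintype.card α : ℝ) with hn'
  have hc : n = 2 * k + r := by rw [hn', hcard]; push_cast; ring
  have hk0 : (0 : ℝ) ≤ k := by positivity
  have h1 : (1 - 232 / 10000 : ℝ) ≤ 2 * k * (n - b) / (n * (n - 1)) := by
    rw [le_div_iff₀ (by nlinarith)]
    have h2 : (1 - 11 / 10000000) * n ≤ 2 * k := by
      have : (r : ℝ) ≤ 11 / 10000000 * n := by rw [hc]; nlinarith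
      linarith
    have h3 : n - 90000 ≤ n - b := by linarith
    have h4 : (1 - 11 / 10000000) * n * (n - 90000) ≤ 2 * k * (n - b) :=
      mul_le_mul h2 h3 (by linarith) (by linarith)
    refine le_trans ?_ h4
    nlinarith
  linarith

end Pool.Agent.H49.MMS
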