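import Mathlib
import Pool.Agent.H49.MMS.Num

open Finset
open scoped BigOperators

namespace Pool.Agent.H49.MMS

variable {α : Type} [Fintype α] [DecidableEq α]

/-- number of `m`-subsets of `M` whose sum, shifted by `z`, is positive -/
noncomputable def cnt (x : α → ℝ) (M : Finset α) (m : ℕ) (z : ℝ) : ℝ :=
  ∑ S ∈ M.powersetCard m, (if 0 < z + ∑ a ∈ S, x a then (1 : ℝ) else 0)

theorem goodC_eq (x : α → ℝ) (k : ℕ) : goodC x k = cnt x univ k 0 := by
  unfold goodC cnt
  simp only [zero_add]

omit [Fintype α] in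
theorem cnt_insert (x : α → ℝ) (M : Finset α) (m : ℕ) (z : ℝ) (a : α) (ha : a ∉ M) :
    cnt x (insert a M) (m + 1) z = cnt x M (m + 1) z + cnt x M m (z + x a) := by
  unfold cnt
  rw [Finset.powersetCard_succ_insert ha, Finset.sum_union, Finset.sum_image]
  · congr 1
    refine Finset.sum_congr rfl fun S hS => ?_
    have haS : a ∉ S := fun h => ha ((Finset.mem_powersetCard.1 hS).1 h)
    rw [Finset.sum_insert haS, add_assoc]
  · intro S hS T hT h
    have haS : a ∉ S := fun h => ha ((Finset.mem_powersetCard.1 hS).1 h)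
    have haT : a ∉ T := fun h => ha ((Finset.mem_powersetCard.1 hT).1 h)
    rw [← Finset.erase_insert haS, ← Finset.erase_insert haT, h]
  · rw [Finset.disjoint_left]
    intro S hS hS'
    obtain ⟨T, hT, rfl⟩ := Finset.mem_image.1 hS'
    exact ha ((Finset.mem_powersetCard.1 hS).1 (Finset.mem_insert_self _ _))

/-- decomposition by the pattern on two elements -/
theorem goodC_split (x : α → ℝ) (k : ℕ) (a b : α) (hab : a ≠ b) :
    goodC x (k + 2) = cnt x ((univ.erase a).erase b) (k + 2) 0 +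
      cnt x ((univ.erase a).erase b) (k + 1) (x b) +
      cnt x ((univ.erase a).erase b) (k + 1) (x a) +
      cnt x ((univ.erase a).erase b) k (x a + x b) := by
  set M : Finset α := (univ.erase a).erase b with hM
  have hb : b ∉ M := Finset.notMem_erase _ _
  have ha : a ∉ insert b M := by
    rw [Finset.mem_insert, not_or]
    exact ⟨hab, fun h => Finset.notMem_erase a univ (Finset.mem_of_mem_erase h)⟩
  have huniv : (univ : Finset α) = insert a (insert b M) := by
    rw [hM, Finset.insert_erase, Finset.insert_erase (Finset.mem_univ a)]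
    exact Finset.mem_erase.2 ⟨hab.symm, Finset.mem_univ _⟩
  rw [goodC_eq, huniv, cnt_insert x _ _ _ a ha, cnt_insert x _ _ _ b hb,
    cnt_insert x _ _ _ b hb]
  simp only [zero_add]
  ring

omit [Fintype α] in
theorem cnt_nonneg (x : α → ℝ) (M : Finset α) (m : ℕ) (z : ℝ) : 0 ≤ cnt x M m z := by
  unfold cnt
  refine Finset.sum_nonneg fun S _ => ?_
  split_ifs <;> norm_num

theorem card_M (a b : α) (hab : a ≠ b) :
    ((univ.erase a).erase b).card = Fintype.card α - 2 := by
  rw [Finset.card_erase_of_mem (Finset.mem_erase.2 ⟨hab.symm, Finset.mem_univ _⟩),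
    Finset.card_erase_of_mem (Finset.mem_univ a), Finset.card_univ]
  rfl

theorem sum_M (a b : α) (hab : a ≠ b) (f : α → ℝ) :
    ∑ i ∈ (univ.erase a).erase b, f i = ∑ i, f i - f a - f b := by
  have h1 := Finset.add_sum_erase univ f (Finset.mem_univ a)
  have h2 := Finset.add_sum_erase (univ.erase a) f
    (Finset.mem_erase.2 ⟨hab.symm, Finset.mem_univ b⟩)
  linarith

omit [Fintype α] in
/-- Chebyshev for `cnt` -/
theorem cnt_cheb (x u : α → ℝ) (xb : ℝ) (hx : ∀ a, x a = xb + u a) (M : Finset α) (m : ℕ)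
    (hm : m ≤ M.card) (hn : 2 ≤ M.card) (z t : ℝ) (ht : 0 ≤ t)
    (htz : t ≤ z + m * xb + (m : ℝ) * ((∑ a ∈ M, u a) / M.card)) :
    (((M.card).choose m : ℝ) - cnt x M m z) * t ^ 2 ≤
      ((M.card).choose m : ℝ) * (((m : ℝ) * ((M.card : ℝ) - m)) /
        ((M.card : ℝ) * ((M.card : ℝ) - 1)) * ∑ a ∈ M, u a ^ 2) := by
  have h := cheb M m hm u hn t (- z - m * xb) ht (by linarith)
  have h2 : ((M.card).choose m : ℝ) - cnt x M m z =
      (((M.powersetCard m).filter (fun S => ∑ a ∈ S, u a ≤ - z - m * xb)).card : ℝ) := by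
    unfold cnt
    rw [← Finset.card_powersetCard, ← Finset.sum_boole, Finset.cast_card,
      ← Finset.sum_sub_distrib]
    refine Finset.sum_congr rfl fun S hS => ?_
    have hc := (Finset.mem_powersetCard.1 hS).2
    have : ∑ a ∈ S, x a = m * xb + ∑ a ∈ S, u a := by
      simp only [hx]
      rw [Finset.sum_add_distrib, Finset.sum_const, hc, nsmul_eq_mul]
    rw [this]
    by_cases h : ∑ a ∈ S, u a ≤ - z - m * xb
    · rw [if_pos h, if_neg (by linarith)]; norm_num
    · rw [if_neg h, if_pos (by linarith)]; norm_num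
  rw [h2]
  exact h

omit [Fintype α] in
/-- exchange of summation -/
theorem swapKJ (M : Finset α) (k m : ℕ) (f : Finset α → ℝ) :
    ∑ K ∈ M.powersetCard k, ∑ J ∈ (M \ K).powersetCard m, f J =
      ((M.card - m).choose k : ℝ) * ∑ J ∈ M.powersetCard m, f J := by
  rw [Finset.sum_comm' (s' := fun J => (M \ J).powersetCard k) (t' := M.powersetCard m)]
  · rw [Finset.mul_sum]
    refine Finset.sum_congr rfl fun J hJ => ?_
    rw [Finset.sum_const, Finset.card_powersetCard, nsmul_eq_mul,
      Finset.card_sdiff_of_subset (Finset.mem_powersetCard.1 hJ).1,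
      (Finset.mem_powersetCard.1 hJ).2]
  · intro K J
    simp only [Finset.mem_powersetCard]
    constructor
    · rintro ⟨⟨hK, hKc⟩, hJ, hJc⟩
      refine ⟨⟨?_, hKc⟩, hJ.trans Finset.sdiff_subset, hJc⟩
      intro i hi
      rw [Finset.mem_sdiff]
      exact ⟨hK hi, fun h => (Finset.mem_sdiff.1 (hJ h)).2 hi⟩
    · rintro ⟨⟨hK, hKc⟩, hJ, hJc⟩
      refine ⟨⟨hK.trans Finset.sdiff_subset, hKc⟩, ?_, hJc⟩
      intro i hi
      rw [Finset.mem_sdiff]
      exact ⟨hJ hi, fun h => (Finset.mem_sdiff.1 (hK h)).2 hi⟩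

/-- positivity is invariant under scaling -/
theorem goodC_scale (x : α → ℝ) (k : ℕ) (c : ℝ) (hc : 0 < c) :
    goodC (fun a => c * x a) k = goodC x k := by
  unfold goodC
  refine Finset.sum_congr rfl fun S _ => ?_
  rw [← Finset.mul_sum]
  by_cases h : 0 < ∑ a ∈ S, x a
  · rw [if_pos h, if_pos (mul_pos hc h)]
  · rw [if_neg h, if_neg]
    intro h'
    exact h ((mul_pos_iff_of_pos_left hc).1 h')

omit [DecidableEq α] in
/-- normalisation: subtract the mean and scale the variance to one -/
theorem normalise (x : α → ℝ) (hx : 0 < ∑ a, x a) :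
    (∀ a, 0 < x a) ∨ ∃ (c : ℝ) (xb : ℝ) (u : α → ℝ), 0 < c ∧ 0 < xb ∧
      (∀ a, c * x a = xb + u a) ∧ ∑ a, u a = 0 ∧ ∑ a, u a ^ 2 = 1 := by
  have hcard : (0 : ℝ) < Fintype.card α := by
    have : Nonempty α := by
      by_contra h
      rw [not_nonempty_iff] at h
      simp at hx
    exact_mod_cast Fintype.card_pos
  set m : ℝ := (∑ a, x a) / Fintype.card α with hm
  have hm0 : 0 < m := div_pos hx hcard
  have hsum : ∑ a, (x a - m) = 0 := by
    rw [Finset.sum_sub_distrib, Finset.sum_const, Finset.card_univ, nsmul_eq_mul, hm]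
    field_simp
    ring
  set V : ℝ := ∑ a, (x a - m) ^ 2 with hV
  by_cases hV0 : V = 0
  · left
    intro a
    have h := (Finset.sum_eq_zero_iff_of_nonneg (fun a _ => sq_nonneg (x a - m))).1 hV0 a
      (Finset.mem_univ a)
    have : x a - m = 0 := by simpa using h
    linarith
  · right
    have hVpos : 0 < V := lt_of_le_of_ne (Finset.sum_nonneg fun _ _ => sq_nonneg _) (Ne.symm hV0)
    have hs : 0 < Real.sqrt V := Real.sqrt_pos.2 hVpos
    refine ⟨1 / Real.sqrt V, m / Real.sqrt V, fun a => (x a - m) / Real.sqrt V, by positivity,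
      by positivity, ?_, ?_, ?_⟩
    · intro a
      field_simp
      ring
    · rw [← Finset.sum_div, hsum, zero_div]
    · simp only [div_pow]
      rw [← Finset.sum_div, Real.sq_sqrt hVpos.le, ← hV, div_self hVpos.ne']

end Pool.Agent.H49.MMS
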