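import Mathlib
import Pool.Agent.H49.MMS.Cnt

open Finset
open scoped BigOperators

namespace Pool.Agent.H49.MMS

variable {α : Type} [Fintype α] [DecidableEq α] {k r : ℕ}

omit [DecidableEq α] in
theorem goodC_pos (x : α → ℝ) (k : ℕ) (hk : 1 ≤ k) (hx : ∀ a, 0 < x a) :
    goodC x k = ((Fintype.card α).choose k : ℝ) := by
  unfold goodC
  rw [Finset.sum_congr rfl (g := fun _ => (1 : ℝ))]
  · rw [Finset.sum_const, Finset.card_powersetCard, Finset.card_univ, nsmul_eq_mul, mul_one]
  · intro S hS
    rw [if_pos]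
    refine Finset.sum_pos (fun a _ => hx a) ?_
    rw [← Finset.card_pos, (Finset.mem_powersetCard.1 hS).2]
    omega

/-- the crude bound -/
theorem CL (x : α → ℝ) (hcard : Fintype.card α = 2 * k + r)
    (hn : (3900000 : ℝ) ≤ Fintype.card α) (hr : (r : ℝ) ≤ 22 / 10000000 * k)
    (hx : 0 < ∑ a, x a) :
    18 / 100 * ((2 * k + r).choose k : ℝ) ≤ goodC x k := by
  have hne : Nonempty (Lam k r ≃ α) :=
    ⟨Fintype.equivOfCardEq (by rw [card_Lam, hcard])⟩
  have hch : (0 : ℝ) ≤ ((2 * k + r).choose k : ℝ) := by positivity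
  have hnk : (Fintype.card α : ℝ) = 2 * k + r := by rw [hcard]; push_cast; ring
  have hk1 : 1 ≤ k := by
    by_contra h
    have : k = 0 := by omega
    subst this
    push_cast at hr hnk
    linarith
  rcases normalise x hx with h | ⟨c, xb, u, hc, hxb, hxu, hu, hu2⟩
  · rw [goodC_pos x k hk1 h, hcard]
    nlinarith
  rw [← goodC_scale x k c hc]
  have hW : (0 : ℝ) < 1 / 300 := by norm_num
  have h := good_frac (k := k) (r := r) (fun a => c * x a) u xb (1 / 300) hxb.le hxu hu hW
    (by rw [hcard]; omega) (by omega)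
  refine le_trans (mul_le_mul_of_nonneg_right ?_ hch) h
  rw [hu2]
  have hrn : (r : ℝ) / Fintype.card α * 1 / (1 / 300) ^ 2 ≤ 99 / 1000 := by
    have : (r : ℝ) / Fintype.card α ≤ 11 / 10000000 := by
      rw [div_le_iff₀ (by linarith)]
      rw [hnk]
      nlinarith
    have e : (r : ℝ) / Fintype.card α * 1 / (1 / 300) ^ 2 = 90000 * ((r : ℝ) / Fintype.card α) := by
      ring
    rw [e]
    linarith
  have hE : 𝔼 e : Lam k r ≃ α, pw (1 / 300) (DD u e) ≤ 5232 / 10000 := by
    by_cases hA : ∃ a, 2 * (1 / 300 : ℝ) < |u a|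
    · obtain ⟨a, ha⟩ := hA
      have h1 := ac_one (k := k) (r := r) u (1 / 300) hW a ha
      have h2 := loss (k := k) (r := r) hcard _ (card_B u hu2) hn hr
      linarith
    · push Not at hA
      have hf : univ.filter (fun a => 2 * (1 / 300 : ℝ) < |u a|) = ∅ := by
        rw [Finset.filter_eq_empty_iff]
        intro a _
        exact not_lt.2 (hA a)
      have hf2 : univ.filter (fun a => ¬ 2 * (1 / 300 : ℝ) < |u a|) = univ := by
        rw [Finset.filter_eq_self]
        intro a _
        exact not_lt.2 (hA a)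
      have h1 := ac_spread_num (k := k) (r := r) u hu hu2 (by linarith) (by rw [hnk]; nlinarith)
        (by rw [hf]; simp) (by rw [hf2, hu2]; norm_num)
      linarith
  linarith

/-- the crude bound for finsets -/
theorem CLM (x : α → ℝ) (M : Finset α) (m r : ℕ) (z : ℝ) (hcard : M.card = 2 * m + r)
    (hn : (3900000 : ℝ) ≤ M.card) (hr : (r : ℝ) ≤ 22 / 10000000 * m)
    (hpos : 0 < m * ∑ a ∈ M, x a + M.card * z) :
    18 / 100 * ((M.card).choose m : ℝ) ≤ cnt x M m z := by
  have hm : (0 : ℝ) < m := by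
    rw [hcard] at hn
    push_cast at hn
    nlinarith
  have h := CL (α := M) (k := m) (r := r) (fun i => x i + z / m) (by rw [Fintype.card_coe, hcard])
    (by rw [Fintype.card_coe]; exact hn) hr (by
      rw [Finset.sum_add_distrib, Finset.sum_const, Finset.card_univ, Fintype.card_coe,
        Finset.sum_coe_sort M x, nsmul_eq_mul]
      have : ∑ a ∈ M, x a + M.card * (z / m) = (m * ∑ a ∈ M, x a + M.card * z) / m := by
        field_simp
      rw [this]
      exact div_pos hpos hm)
  rw [hcard]
  refine h.trans (le_of_eq ?_)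
  unfold goodC cnt
  rw [sum_powersetCard_subtype M m (fun S => if 0 < z + ∑ a ∈ S, x a then (1 : ℝ) else 0)]
  refine Finset.sum_congr rfl fun S hS => ?_
  have hc := (Finset.mem_powersetCard.1 hS).2
  have : ∑ a ∈ S, (x a + z / m) = z + ∑ a ∈ S.map (Function.Embedding.subtype _), x a := by
    rw [Finset.sum_add_distrib, Finset.sum_const, hc, nsmul_eq_mul, Finset.sum_map]
    simp only [Function.Embedding.subtype_apply]
    field_simp
    ring
  rw [this]

end Pool.Agent.H49.MMS
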