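import Mathlib
import Pool.Agent.H49.MMS.CL

open Finset
open scoped BigOperators

namespace Pool.Agent.H49.MMS

variable {α : Type} [Fintype α] [DecidableEq α]

/-- variance factor of a random subset -/
theorem var_factor (N m : ℝ) (hN : 10000 ≤ N) (hm : 0 ≤ m) (hmN : m ≤ N) :
    m * (N - m) / (N * (N - 1)) ≤ 2501 / 10000 := by
  rw [div_le_iff₀ (by nlinarith)]
  nlinarith [sq_nonneg (N - 2 * m)]

theorem var_factor_nonneg (N m : ℝ) (hN : 10000 ≤ N) (hm : 0 ≤ m) (hmN : m ≤ N) :
    0 ≤ m * (N - m) / (N * (N - 1)) :=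
  div_nonneg (mul_nonneg hm (by linarith)) (by nlinarith)

/-- far class: nearly all subsets are good -/
theorem far (x u : α → ℝ) (xb : ℝ) (hx : ∀ a, x a = xb + u a) (M : Finset α) (m : ℕ)
    (hm : m ≤ M.card) (hn : (10000 : ℝ) ≤ M.card) (z : ℝ)
    (htz : 49 / 100 ≤ z + m * xb + (m : ℝ) * ((∑ a ∈ M, u a) / M.card))
    (hV : ∑ a ∈ M, u a ^ 2 ≤ 1 / 30) :
    965 / 1000 * ((M.card).choose m : ℝ) ≤ cnt x M m z := by
  have hn2 : 2 ≤ M.card := by
    have : (2 : ℝ) ≤ M.card := by linarith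
    exact_mod_cast this
  have h := cnt_cheb x u xb hx M m hm hn2 z (49 / 100) (by norm_num) htz
  have hm' : (m : ℝ) ≤ M.card := by exact_mod_cast hm
  have h1 := var_factor M.card m hn (by positivity) hm'
  have h2 := var_factor_nonneg M.card m hn (by positivity) hm'
  have hS : 0 ≤ ∑ a ∈ M, u a ^ 2 := Finset.sum_nonneg fun _ _ => sq_nonneg _
  have h3 : (m : ℝ) * ((M.card : ℝ) - m) / ((M.card : ℝ) * ((M.card : ℝ) - 1)) *
      ∑ a ∈ M, u a ^ 2 ≤ 2501 / 10000 * (1 / 30) :=
    mul_le_mul h1 hV hS (by norm_num)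
  have hc : (0 : ℝ) ≤ ((M.card).choose m : ℝ) := by positivity
  have h4 := mul_le_mul_of_nonneg_left h3 hc
  nlinarith

/-- ratios of binomial coefficients -/
theorem ratio1 (q r : ℕ) : ((2 * q + 2 + r).choose (q + 2) : ℝ) * (q + 2) =
    ((2 * q + 2 + r).choose (q + 1) : ℝ) * (q + 1 + r) := by
  have h := Nat.choose_succ_right_eq (2 * q + 2 + r) (q + 1)
  have e : 2 * q + 2 + r - (q + 1) = q + 1 + r := by omega
  rw [e] at h
  exact_mod_cast h

theorem ratio2 (q r : ℕ) : ((2 * q + 2 + r).choose (q + 1) : ℝ) * (q + 1) =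
    ((2 * q + 2 + r).choose q : ℝ) * (q + 2 + r) := by
  have h := Nat.choose_succ_right_eq (2 * q + 2 + r) q
  have e : 2 * q + 2 + r - q = q + 2 + r := by omega
  rw [e] at h
  exact_mod_cast h

/-- the case of a large positive entry -/
theorem caseB (x u : α → ℝ) (xb : ℝ) (hxb : 0 < xb) (hx : ∀ a, x a = xb + u a)
    (hu : ∑ a, u a = 0) (hu2 : ∑ a, u a ^ 2 = 1) (a b : α) (hab : a ≠ b) (hba : u b ≤ u a)
    (ha : 0 < u a) (hbig : 29 / 30 ≤ u a ^ 2 + u b ^ 2) (q r : ℕ)
    (hcard : Fintype.card α = 2 * (q + 2) + r) (hr2 : 2 ≤ r) (hr : r * 1000000 ≤ q + 2) :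
    ((2 * q + 2 + r).choose (q + 2) : ℝ) ≤ goodC x (q + 2) := by
  set M : Finset α := (univ.erase a).erase b with hM
  have hMc : M.card = 2 * q + 2 + r := by
    rw [hM, card_M a b hab, hcard]; omega
  have hrR : (r : ℝ) * 1000000 ≤ q + 2 := by exact_mod_cast hr
  have hr2R : (2 : ℝ) ≤ r := by exact_mod_cast hr2
  have hMR : (M.card : ℝ) = 2 * q + 2 + r := by rw [hMc]; push_cast; ring
  have hqR : (1999998 : ℝ) ≤ q := by linarith
  have hMu : ∑ i ∈ M, u i = - u a - u b := by rw [hM, sum_M a b hab u, hu]; ring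
  have hMu2 : ∑ i ∈ M, u i ^ 2 ≤ 1 / 30 := by
    rw [hM, sum_M a b hab (fun i => u i ^ 2), hu2]; linarith
  have hT : ∑ i, x i = Fintype.card α * xb := by
    simp only [hx]
    rw [Finset.sum_add_distrib, hu, Finset.sum_const, Finset.card_univ, nsmul_eq_mul, add_zero]
  have hTpos : 0 < ∑ i, x i := by
    rw [hT, hcard]
    push_cast
    positivity
  have hMx : ∑ i ∈ M, x i = ∑ i, x i - x a - x b := by rw [hM, sum_M a b hab x]
  have hxa : 0 < x a := by rw [hx]; linarith
  have hxba : x b ≤ x a := by rw [hx, hx]; linarith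
  rw [goodC_split x q a b hab, ← hM]
  have n1 := cnt_nonneg x M (q + 2) 0
  have n2 := cnt_nonneg x M (q + 1) (x b)
  have n3 := cnt_nonneg x M (q + 1) (x a)
  have n4 := cnt_nonneg x M q (x a + x b)
  have r1 := ratio1 q r
  have r2 := ratio2 q r
  set C0 : ℝ := ((2 * q + 2 + r).choose (q + 2) : ℝ) with hC0
  set C1 : ℝ := ((2 * q + 2 + r).choose (q + 1) : ℝ) with hC1
  set C2 : ℝ := ((2 * q + 2 + r).choose q : ℝ) with hC2
  have hC0n : 0 ≤ C0 := by positivity
  have hC1n : 0 ≤ C1 := by positivity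
  have hC2n : 0 ≤ C2 := by positivity
  have k1 : 99 / 100 * C0 ≤ C1 := by
    have : 99 / 100 * C0 * (q + 1 + r) ≤ C1 * (q + 1 + r) := by
      rw [← r1]
      nlinarith
    exact le_of_mul_le_mul_right this (by linarith)
  have k2 : 99 / 100 * C1 ≤ C2 := by
    have : 99 / 100 * C1 * (q + 2 + r) ≤ C2 * (q + 2 + r) := by
      rw [← r2]
      nlinarith
    exact le_of_mul_le_mul_right this (by linarith)
  by_cases hb : 0 ≤ u b
  · -- both nonnegative
    have hsum : 98 / 100 ≤ u a + u b := by nlinarith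
    have f := far x u xb hx M q (by rw [hMc]; omega) (by rw [hMR]; linarith) (x a + x b)
      (by
        rw [hMu, hx a, hx b]
        have hq0 : (0 : ℝ) ≤ q * xb := by positivity
        have e : (q : ℝ) * ((- u a - u b) / M.card) = - ((q : ℝ) / M.card) * (u a + u b) := by
          field_simp; ring
        rw [e]
        have h1 : (q : ℝ) / M.card ≤ 1 / 2 := by
          rw [hMR, div_le_div_iff₀ (by linarith) (by norm_num)]
          linarith
        nlinarith) hMu2
    have c := CLM x M (q + 1) r (x a) (by rw [hMc]; ring) (by rw [hMR]; linarith)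
      (by push_cast; linarith)
      (by
        rw [hMx, hMR]
        push_cast
        nlinarith [mul_nonneg (by linarith : (0:ℝ) ≤ q + 1) (sub_nonneg.2 hxba),
          mul_pos (by linarith : (0:ℝ) < r) hxa, mul_pos (by linarith : (0:ℝ) < q + 1) hTpos])
    rw [hMc, ← hC2] at f
    rw [hMc, ← hC1] at c
    nlinarith
  · push Not at hb
    have hsum : 983 / 1000 ≤ u a - u b := by nlinarith [mul_pos ha (neg_pos.2 hb)]
    have f := far x u xb hx M (q + 1) (by rw [hMc]; omega) (by rw [hMR]; linarith) (x a)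
      (by
        rw [hMu, hx a]
        push_cast
        have hq0 : (0 : ℝ) ≤ (q + 1) * xb := by positivity
        have e : ((q : ℝ) + 1) * ((- u a - u b) / M.card) =
            - (((q : ℝ) + 1) / M.card) * (u a + u b) := by
          field_simp; ring
        rw [e]
        have h1 : ((q : ℝ) + 1) / M.card ≤ 1 / 2 := by
          rw [hMR, div_le_div_iff₀ (by linarith) (by norm_num)]
          linarith
        have h2 : 4999 / 10000 ≤ ((q : ℝ) + 1) / M.card := by
          rw [hMR, div_le_div_iff₀ (by norm_num) (by linarith)]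
          linarith
        nlinarith) hMu2
    rw [hMc, ← hC1] at f
    by_cases hs : x a + x b ≤ 0
    · have c := CLM x M (q + 2) (r - 2) 0 (by rw [hMc]; omega) (by rw [hMR]; linarith)
        (by
          rw [Nat.cast_sub hr2]
          push_cast
          linarith)
        (by
          rw [hMx, mul_zero, add_zero]
          push_cast
          exact mul_pos (by linarith) (by linarith))
      rw [hMc, ← hC0] at c
      nlinarith
    · push Not at hs
      have c := CLM x M q (r + 2) (x a + x b) (by rw [hMc]; ring) (by rw [hMR]; linarith)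
        (by push_cast; linarith)
        (by
          rw [hMx, hMR]
          nlinarith [mul_pos (by linarith : (0:ℝ) < q) hTpos,
            mul_pos (by linarith : (0:ℝ) < q + 2 + r) hs])
      rw [hMc, ← hC2] at c
      nlinarith

/-- the case of two large negative entries -/
theorem caseN (x u : α → ℝ) (xb : ℝ) (hxb : 0 < xb) (hx : ∀ a, x a = xb + u a)
    (hu : ∑ a, u a = 0) (hu2 : ∑ a, u a ^ 2 = 1) (a b : α) (hab : a ≠ b)
    (ha : u a < - (2 * (1 / 300))) (hb : u b < - (2 * (1 / 300))) (q r : ℕ)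
    (hcard : Fintype.card α = 2 * (q + 2) + r) (hr2 : 2 ≤ r) (hr : r * 1000000 ≤ q + 2) :
    ((2 * q + 2 + r).choose (q + 2) : ℝ) ≤ goodC x (q + 2) := by
  set M : Finset α := (univ.erase a).erase b with hM
  have hMc : M.card = 2 * q + 2 + r := by
    rw [hM, card_M a b hab, hcard]; omega
  have hrR : (r : ℝ) * 1000000 ≤ q + 2 := by exact_mod_cast hr
  have hr2R : (2 : ℝ) ≤ r := by exact_mod_cast hr2
  have hqR : (1999998 : ℝ) ≤ q := by linarith
  have hMu : ∑ i ∈ M, u i = - u a - u b := by rw [hM, sum_M a b hab u, hu]; ring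
  have hle : ∀ c, - 1 ≤ u c := by
    intro c
    have : u c ^ 2 ≤ 1 := by
      rw [← hu2]
      exact Finset.single_le_sum (f := fun i => u i ^ 2) (fun _ _ => sq_nonneg _)
        (Finset.mem_univ c)
    nlinarith
  set P : ℝ := ((q + 1 + r).choose (q + 2) : ℝ) with hP
  set R : ℝ := ((q + r).choose (q + 1) : ℝ) with hR
  have hPR : P * (q + 2) = (q + 1 + r) * R := by
    have h := Nat.add_one_mul_choose_eq (q + r) (q + 1)
    have e : q + r + 1 = q + 1 + r := by ring
    have e2 : q + 1 + 1 = q + 2 := by ring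
    rw [e, e2] at h
    have h2 : ((q + 1 + r : ℕ) : ℝ) * R = P * ((q + 2 : ℕ) : ℝ) := by
      rw [hR, hP]; exact_mod_cast h
    push_cast at h2
    linarith
  have hRpos : 0 < R := by
    rw [hR]; exact_mod_cast Nat.choose_pos (by omega)
  have hP19 : P ≤ 19 / 10 * R := by
    have : P * (q + 2) ≤ 19 / 10 * R * (q + 2) := by
      rw [hPR]; nlinarith
    exact le_of_mul_le_mul_right this (by linarith)
  have hPpos : 0 < P := by
    rw [hP]; exact_mod_cast Nat.choose_pos (by omega)
  -- the local claim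
  have hloc : ∀ K ∈ M.powersetCard (q + 2), ∑ i ∈ K, x i ≤ 0 →
      ∀ c c' : α, (c = a ∧ c' = b ∨ c = b ∧ c' = a) →
      95 / 100 * R ≤ cnt x (M \ K) (q + 1) (x c) := by
    intro K hK hKx c c' hcc
    have hK' := Finset.mem_powersetCard.1 hK
    have hLc : (M \ K).card = q + r := by
      rw [Finset.card_sdiff_of_subset hK'.1, hMc, hK'.2]; omega
    have hLR : ((M \ K).card : ℝ) = q + r := by rw [hLc]; push_cast; ring
    have hKu : ∑ i ∈ K, x i = (q + 2) * xb + ∑ i ∈ K, u i := by
      simp only [hx]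
      rw [Finset.sum_add_distrib, Finset.sum_const, hK'.2, nsmul_eq_mul]
      push_cast; ring
    have hLu : ∑ i ∈ M \ K, u i = - u a - u b - ∑ i ∈ K, u i := by
      rw [← hMu, ← Finset.sum_sdiff hK'.1]; ring
    have hLu' : - u a - u b ≤ ∑ i ∈ M \ K, u i := by
      have : 0 ≤ ((q : ℝ) + 2) * xb := by positivity
      linarith
    have hcc' : u c + u c' = u a + u b := by
      rcases hcc with ⟨h1, h2⟩ | ⟨h1, h2⟩ <;> rw [h1, h2] <;> ring
    have hc' : u c' < - (2 * (1 / 300)) := by
      rcases hcc with ⟨_, h2⟩ | ⟨_, h2⟩ <;> rw [h2] <;> assumption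
    have h := cnt_cheb x u xb hx (M \ K) (q + 1) (by rw [hLc]; omega) (by rw [hLc]; omega)
      (x c) (1 / 200) (by norm_num) (by
        rw [hx c]
        push_cast
        have hq0 : (0 : ℝ) ≤ (q + 1) * xb := by positivity
        have hρ : 1 - 1 / 1000000 ≤ ((q : ℝ) + 1) / (M \ K).card := by
          rw [hLR, le_div_iff₀ (by linarith)]
          nlinarith
        have hρ1 : ((q : ℝ) + 1) / (M \ K).card ≤ 1 := by
          rw [hLR, div_le_one (by linarith)]
          linarith
        have e : ((q : ℝ) + 1) * ((∑ i ∈ M \ K, u i) / (M \ K).card) =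
            (((q : ℝ) + 1) / (M \ K).card) * ∑ i ∈ M \ K, u i := by
          field_simp
        rw [e]
        have h1 : (((q : ℝ) + 1) / (M \ K).card) * (- u a - u b) ≤
            (((q : ℝ) + 1) / (M \ K).card) * ∑ i ∈ M \ K, u i :=
          mul_le_mul_of_nonneg_left hLu' (by linarith)
        have h2 : (1 - 1 / 1000000) * (- u a - u b) ≤
            (((q : ℝ) + 1) / (M \ K).card) * (- u a - u b) :=
          mul_le_mul_of_nonneg_right hρ (by linarith)
        have h3 := hle a
        have h4 := hle b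
        linarith)
    have hv1 : ∑ i ∈ M \ K, u i ^ 2 ≤ 1 := by
      rw [← hu2]
      exact Finset.sum_le_sum_of_subset_of_nonneg (Finset.subset_univ _)
        (fun _ _ _ => sq_nonneg _)
    have hv0 : 0 ≤ ∑ i ∈ M \ K, u i ^ 2 := Finset.sum_nonneg fun _ _ => sq_nonneg _
    rw [hLc, ← hR] at h
    push_cast at h
    have hf : ((q : ℝ) + 1) * ((q : ℝ) + r - (q + 1)) / (((q : ℝ) + r) * ((q : ℝ) + r - 1)) ≤
        11 / 10000000 := by
      rw [div_le_iff₀ (by nlinarith)]
      have h1 : ((q : ℝ) + 1) ≤ q + r := by linarith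
      have h2 : ((q : ℝ) + r - (q + 1)) ≤ 11 / 10000000 * ((q : ℝ) + r - 1) := by linarith
      have h3 : (0 : ℝ) ≤ ((q : ℝ) + r - (q + 1)) := by linarith
      calc ((q : ℝ) + 1) * ((q : ℝ) + r - (q + 1)) ≤
          (q + r) * (11 / 10000000 * ((q : ℝ) + r - 1)) := mul_le_mul h1 h2 h3 (by linarith)
        _ = _ := by ring
    have hf0 : 0 ≤ ((q : ℝ) + 1) * ((q : ℝ) + r - (q + 1)) / (((q : ℝ) + r) * ((q : ℝ) + r - 1)) :=
      div_nonneg (mul_nonneg (by linarith) (by linarith)) (by nlinarith)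
    have hprod : ((q : ℝ) + 1) * ((q : ℝ) + r - (q + 1)) / (((q : ℝ) + r) * ((q : ℝ) + r - 1)) *
        ∑ i ∈ M \ K, u i ^ 2 ≤ 11 / 10000000 * 1 :=
      mul_le_mul hf hv1 hv0 (by norm_num)
    have h6 := mul_le_mul_of_nonneg_left hprod hRpos.le
    nlinarith
  -- double counting
  have hdc : (∑ K ∈ M.powersetCard (q + 2), (if ∑ i ∈ K, x i ≤ 0 then (1 : ℝ) else 0)) * P ≤
      P * (cnt x M (q + 1) (x a) + cnt x M (q + 1) (x b)) := by
    have e1 : M.card - (q + 1) = q + 1 + r := by rw [hMc]; omega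
    have s1 := swapKJ M (q + 2) (q + 1) (fun S => if 0 < x a + ∑ i ∈ S, x i then (1 : ℝ) else 0)
    have s2 := swapKJ M (q + 2) (q + 1) (fun S => if 0 < x b + ∑ i ∈ S, x i then (1 : ℝ) else 0)
    rw [e1, ← hP] at s1 s2
    have s3 : P * (cnt x M (q + 1) (x a) + cnt x M (q + 1) (x b)) =
        ∑ K ∈ M.powersetCard (q + 2), (cnt x (M \ K) (q + 1) (x a) +
          cnt x (M \ K) (q + 1) (x b)) := by
      rw [Finset.sum_add_distrib, mul_add]
      unfold cnt
      rw [s1, s2]
    rw [s3, Finset.sum_mul]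
    refine Finset.sum_le_sum fun K hK => ?_
    split_ifs with h
    · have h1 := hloc K hK h a b (Or.inl ⟨rfl, rfl⟩)
      have h2 := hloc K hK h b a (Or.inr ⟨rfl, rfl⟩)
      linarith
    · rw [zero_mul]
      exact add_nonneg (cnt_nonneg _ _ _ _) (cnt_nonneg _ _ _ _)
  have hbad : (∑ K ∈ M.powersetCard (q + 2), (if ∑ i ∈ K, x i ≤ 0 then (1 : ℝ) else 0)) =
      ((2 * q + 2 + r).choose (q + 2) : ℝ) - cnt x M (q + 2) 0 := by
    unfold cnt
    rw [← hMc, ← Finset.card_powersetCard, Finset.cast_card, ← Finset.sum_sub_distrib]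
    refine Finset.sum_congr rfl fun K _ => ?_
    by_cases h : ∑ i ∈ K, x i ≤ 0
    · rw [if_pos h, if_neg (by linarith)]; norm_num
    · rw [if_neg h, if_pos (by linarith)]; norm_num
  rw [hbad, mul_comm P] at hdc
  have hfin := le_of_mul_le_mul_right hdc hPpos
  rw [goodC_split x q a b hab, ← hM]
  have n4 := cnt_nonneg x M q (x a + x b)
  linarith

end Pool.Agent.H49.MMS
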