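import Mathlib
import Pool.Agent.H49.MMS.Two

open Finset
open scoped BigOperators

namespace Pool.Agent.H49.MMS

variable {α : Type} [Fintype α] [DecidableEq α]

omit [DecidableEq α] in
theorem exists_neg_of_sum (u : α → ℝ) (hu : ∑ a, u a = 0) (a : α) (ha : 0 < u a) :
    ∃ b, u b < 0 := by
  by_contra h
  push Not at h
  have : 0 < ∑ a, u a := Finset.sum_pos' (fun i _ => h i) ⟨a, Finset.mem_univ _, ha⟩
  linarith

omit [DecidableEq α] in
theorem exists_pos_of_sum (u : α → ℝ) (hu : ∑ a, u a = 0) (a : α) (ha : u a < 0) :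
    ∃ b, 0 < u b := by
  obtain ⟨b, hb⟩ := exists_neg_of_sum (fun i => - u i) (by
    rw [Finset.sum_neg_distrib, hu, neg_zero]) a (by linarith)
  exact ⟨b, by linarith⟩

/-- lower bound, `r ≥ 2` -/
theorem main_lb (x : α → ℝ) (hxs : 0 < ∑ a, x a) (q r : ℕ)
    (hcard : Fintype.card α = 2 * (q + 2) + r) (hr2 : 2 ≤ r) (hr : r * 1000000 ≤ q + 2) :
    ((2 * q + 2 + r).choose (q + 2) : ℝ) ≤ goodC x (q + 2) := by
  have hne : Nonempty (Lam (q + 2) r ≃ α) :=
    ⟨Fintype.equivOfCardEq (by rw [card_Lam, hcard])⟩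
  have hrR : (r : ℝ) * 1000000 ≤ q + 2 := by exact_mod_cast hr
  have hr2R : (2 : ℝ) ≤ r := by exact_mod_cast hr2
  have hqR : (1999998 : ℝ) ≤ q := by linarith
  have hn : (Fintype.card α : ℝ) = 2 * (q + 2) + r := by rw [hcard]; push_cast; ring
  -- the ratio of the two binomial coefficients
  have hratio : ((2 * q + 2 + r).choose (q + 2) : ℝ) ≤
      2502 / 10000 * ((2 * (q + 2) + r).choose (q + 2) : ℝ) := by
    have h1 := Nat.choose_mul_succ_eq (2 * q + 2 + r) (q + 2)
    have h2 := Nat.choose_mul_succ_eq (2 * q + 2 + r + 1) (q + 2)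
    have e1 : 2 * q + 2 + r + 1 - (q + 2) = q + 1 + r := by omega
    have e2 : 2 * q + 2 + r + 1 + 1 - (q + 2) = q + 2 + r := by omega
    have e3 : 2 * q + 2 + r + 1 + 1 = 2 * (q + 2) + r := by ring
    rw [e1] at h1
    rw [e2, e3] at h2
    set c0 : ℝ := ((2 * q + 2 + r).choose (q + 2) : ℝ) with hc0
    set c1 : ℝ := ((2 * q + 2 + r + 1).choose (q + 2) : ℝ) with hc1
    set c2 : ℝ := ((2 * (q + 2) + r).choose (q + 2) : ℝ) with hc2
    have h1' : c0 * (2 * q + 2 + r + 1) = c1 * (q + 1 + r) := by rw [hc0, hc1]; exact_mod_cast h1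
    have h2' : c1 * (2 * (q + 2) + r) = c2 * (q + 2 + r) := by rw [hc1, hc2]; exact_mod_cast h2
    have hc0n : 0 ≤ c0 := by positivity
    have hc1n : 0 ≤ c1 := by positivity
    have hc2n : 0 ≤ c2 := by positivity
    have k1 : c0 ≤ 5001 / 10000 * c1 := by
      have : c0 * (2 * q + 2 + r + 1) ≤ 5001 / 10000 * c1 * (2 * q + 2 + r + 1) := by
        rw [h1']; nlinarith
      exact le_of_mul_le_mul_right this (by linarith)
    have k2 : c1 ≤ 5001 / 10000 * c2 := by
      have : c1 * (2 * (q + 2) + r) ≤ 5001 / 10000 * c2 * (2 * (q + 2) + r) := by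
        rw [h2']; nlinarith
      exact le_of_mul_le_mul_right this (by linarith)
    linarith
  have hchn : (0 : ℝ) ≤ ((2 * (q + 2) + r).choose (q + 2) : ℝ) := by positivity
  rcases normalise x hxs with h | ⟨c, xb, u, hc, hxb, hxu, hu, hu2⟩
  · rw [goodC_pos x _ (by omega) h, hcard]
    linarith
  rw [← goodC_scale x _ c hc]
  have hW : (0 : ℝ) < 1 / 300 := by norm_num
  have hgf := good_frac (k := q + 2) (r := r) (fun a => c * x a) u xb (1 / 300) hxb.le hxu hu hW
    (by rw [hcard]; omega) (by omega)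
  rw [hu2] at hgf
  have hrn : (r : ℝ) / Fintype.card α * 1 / (1 / 300) ^ 2 ≤ 45 / 1000 := by
    have : (r : ℝ) / Fintype.card α ≤ 5 / 10000000 := by
      rw [div_le_iff₀ (by linarith), hn]
      nlinarith
    have e : (r : ℝ) / Fintype.card α * 1 / (1 / 300) ^ 2 = 90000 * ((r : ℝ) / Fintype.card α) := by
      ring
    rw [e]
    linarith
  -- it is enough to have anticoncentration
  have hE : 𝔼 e : Lam (q + 2) r ≃ α, pw (1 / 300) (DD u e) ≤ 4546 / 10000 →
      ((2 * q + 2 + r).choose (q + 2) : ℝ) ≤ goodC (fun a => c * x a) (q + 2) := by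
    intro h
    refine le_trans hratio (le_trans (mul_le_mul_of_nonneg_right ?_ hchn) hgf)
    linarith
  set A : Finset α := univ.filter (fun a => 2 * (1 / 300 : ℝ) < |u a|) with hA
  by_cases hA3 : 2 < A.card
  · obtain ⟨a, b, d, ha, hb, hd, hab, had, hbd⟩ := Finset.two_lt_card_iff.1 hA3
    have h1 := ac_three (k := q + 2) (r := r) u (1 / 300) hW a b d hab had hbd
      (Finset.mem_filter.1 ha).2 (Finset.mem_filter.1 hb).2 (Finset.mem_filter.1 hd).2
    have h2 := loss (k := q + 2) (r := r) hcard _ (card_B u hu2) (by rw [hn]; linarith)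
      (by push_cast; linarith)
    exact hE (by linarith)
  push Not at hA3
  set V : ℝ := ∑ a ∈ univ.filter (fun a => ¬ 2 * (1 / 300 : ℝ) < |u a|), u a ^ 2 with hVdef
  by_cases hV : (1 / 30 : ℝ) ≤ V
  · have h1 := ac_spread_num (k := q + 2) (r := r) u hu hu2 (by rw [hn]; linarith)
      (by rw [hn]; push_cast; linarith) hA3 hV
    exact hE (by linarith)
  push Not at hV
  have hsplit : ∑ a ∈ A, u a ^ 2 + V = 1 := by
    rw [← hu2]
    exact Finset.sum_filter_add_sum_filter_not univ _ _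
  have hAsum : 29 / 30 < ∑ a ∈ A, u a ^ 2 := by linarith
  have hB : ∀ a b : α, a ≠ b → u b ≤ u a → 0 < u a → 29 / 30 ≤ u a ^ 2 + u b ^ 2 →
      ((2 * q + 2 + r).choose (q + 2) : ℝ) ≤ goodC (fun a => c * x a) (q + 2) :=
    fun a b hab hba ha hbig => caseB (fun a => c * x a) u xb hxb hxu hu hu2 a b hab hba ha hbig q r
      hcard hr2 hr
  have hAc : A.card = 0 ∨ A.card = 1 ∨ A.card = 2 := by omega
  rcases hAc with h0 | h1 | h2
  · rw [Finset.card_eq_zero.1 h0] at hAsum
    norm_num at hAsum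
  · obtain ⟨a, ha⟩ := Finset.card_eq_one.1 h1
    rw [ha, Finset.sum_singleton] at hAsum
    rcases lt_trichotomy (u a) 0 with h | h | h
    · obtain ⟨b, hb⟩ := exists_pos_of_sum u hu a h
      refine hB b a ?_ (by linarith) hb (by nlinarith [sq_nonneg (u b)])
      intro hab; subst hab; linarith
    · rw [h] at hAsum; norm_num at hAsum
    · obtain ⟨b, hb⟩ := exists_neg_of_sum u hu a h
      refine hB a b ?_ (by linarith) h (by nlinarith [sq_nonneg (u b)])
      intro hab; subst hab; linarith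
  · obtain ⟨a, b, hab, hAab⟩ := Finset.card_eq_two.1 h2
    rw [hAab, Finset.sum_pair hab] at hAsum
    have haA : a ∈ A := by rw [hAab]; simp
    have hbA : b ∈ A := by rw [hAab]; simp
    have ha := (Finset.mem_filter.1 haA).2
    have hb := (Finset.mem_filter.1 hbA).2
    by_cases hpa : 0 < u a
    · rcases le_total (u b) (u a) with h | h
      · exact hB a b hab h hpa hAsum.le
      · exact hB b a hab.symm h (lt_of_lt_of_le hpa h) (by linarith)
    · by_cases hpb : 0 < u b
      · exact hB b a hab.symm (by linarith) hpb (by linarith)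
      · push Not at hpa hpb
        rw [abs_of_nonpos hpa] at ha
        rw [abs_of_nonpos hpb] at hb
        exact caseN (fun a => c * x a) u xb hxb hxu hu hu2 a b hab (by linarith) (by linarith)
          q r hcard hr2 hr

end Pool.Agent.H49.MMS
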