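import Mathlib
import Pool.Agent.H49.MMS.Main

open Finset
open scoped BigOperators

namespace Pool.Agent.H49.MMS

/-- the number of `k`-element subsets with strictly positive sum -/
noncomputable def posSums (n k : ℕ) (x : Fin n → ℝ) : ℕ :=
  ((univ.powersetCard k).filter (fun S : Finset (Fin n) => 0 < ∑ i ∈ S, x i)).card

/-- all values of `posSums` for real numbers with strictly positive total -/
def values (n k : ℕ) : Set ℕ :=
  {m | ∃ x : Fin n → ℝ, 0 < ∑ i, x i ∧ posSums n k x = m}

theorem posSums_eq (n k : ℕ) (x : Fin n → ℝ) : (posSums n k x : ℝ) = goodC x k := by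
  unfold posSums goodC
  rw [Finset.sum_boole]

/-- lower bound for `n = 2k + 1` -/
theorem lb_one {α : Type} [Fintype α] [DecidableEq α] (x : α → ℝ) (hxs : 0 < ∑ a, x a) (k : ℕ)
    (hk : 1 ≤ k) (hcard : Fintype.card α = 2 * k + 1) :
    ((2 * k - 1).choose k : ℝ) ≤ goodC x k := by
  by_cases hall : ∀ a, 0 < x a
  · rw [goodC_pos x k hk hall, hcard]
    exact_mod_cast Nat.choose_le_choose k (by omega)
  push Not at hall
  obtain ⟨i, hi⟩ := hall
  set M : Finset α := univ.erase i with hM
  have hMc : M.card = 2 * k := by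
    rw [hM, Finset.card_erase_of_mem (Finset.mem_univ _), Finset.card_univ, hcard]; rfl
  have hMx : 0 < ∑ a ∈ M, x a := by
    have := Finset.add_sum_erase univ x (Finset.mem_univ i)
    rw [← hM] at this
    linarith
  have hsub : cnt x M k 0 ≤ goodC x k := by
    rw [goodC_eq]
    unfold cnt
    refine Finset.sum_le_sum_of_subset_of_nonneg (Finset.powersetCard_mono (Finset.subset_univ _))
      (fun S _ _ => ?_)
    split_ifs <;> norm_num
  refine le_trans ?_ hsub
  have hinv : cnt x M k 0 = ∑ S ∈ M.powersetCard k,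
      (if 0 < 0 + ∑ a ∈ M \ S, x a then (1 : ℝ) else 0) := by
    unfold cnt
    refine Finset.sum_nbij' (fun S => M \ S) (fun S => M \ S) ?_ ?_ ?_ ?_ ?_
    · intro S hS
      have h := Finset.mem_powersetCard.1 hS
      rw [Finset.mem_powersetCard]
      refine ⟨Finset.sdiff_subset, ?_⟩
      rw [Finset.card_sdiff_of_subset h.1, hMc, h.2]; omega
    · intro S hS
      have h := Finset.mem_powersetCard.1 hS
      rw [Finset.mem_powersetCard]
      refine ⟨Finset.sdiff_subset, ?_⟩
      rw [Finset.card_sdiff_of_subset h.1, hMc, h.2]; omega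
    · intro S hS
      have h := Finset.mem_powersetCard.1 hS
      simp only [Finset.sdiff_sdiff_eq_self h.1]
    · intro S hS
      have h := Finset.mem_powersetCard.1 hS
      simp only [Finset.sdiff_sdiff_eq_self h.1]
    · intro S hS
      have h := Finset.mem_powersetCard.1 hS
      simp only [Finset.sdiff_sdiff_eq_self h.1]
  have h2 : ((2 * k).choose k : ℝ) ≤ 2 * cnt x M k 0 := by
    have e : 2 * cnt x M k 0 = cnt x M k 0 + cnt x M k 0 := by ring
    rw [e]
    nth_rewrite 2 [hinv]
    unfold cnt
    rw [← Finset.sum_add_distrib]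
    calc ((2 * k).choose k : ℝ) = ∑ S ∈ M.powersetCard k, (1 : ℝ) := by
          rw [Finset.sum_const, Finset.card_powersetCard, hMc, nsmul_eq_mul, mul_one]
      _ ≤ _ := by
          refine Finset.sum_le_sum fun S hS => ?_
          have h := Finset.mem_powersetCard.1 hS
          have hs : ∑ a ∈ M \ S, x a + ∑ a ∈ S, x a = ∑ a ∈ M, x a := Finset.sum_sdiff h.1
          by_cases h1 : 0 < 0 + ∑ a ∈ S, x a
          · rw [if_pos h1]
            split_ifs <;> norm_num
          · rw [if_neg h1, if_pos (by linarith)]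
            norm_num
  have h3 : ((2 * k).choose k : ℝ) = 2 * ((2 * k - 1).choose k : ℝ) := by
    obtain ⟨j, rfl⟩ := Nat.exists_eq_add_of_le hk
    have e1 : 2 * (1 + j) = (2 * j + 1) + 1 := by ring
    have e2 : 2 * (1 + j) - 1 = 2 * j + 1 := by omega
    have e3 : 1 + j = j + 1 := by ring
    rw [e2, e1, e3, Nat.choose_succ_succ]
    have e4 : (2 * j + 1).choose j = (2 * j + 1).choose (j + 1) := by
      rw [Nat.choose_symm_half]
    rw [e4]
    push_cast
    ring
  linarith

/-- the lower bound -/
theorem lower (n k : ℕ) (hk : 1 ≤ k) (hn : 2 * k < n)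
    (h : n = 2 * k + 1 ∨ 1000000 * n ≤ 2000001 * k) (x : Fin n → ℝ) (hx : 0 < ∑ i, x i) :
    (n - 2).choose k ≤ posSums n k x := by
  have key : ((n - 2).choose k : ℝ) ≤ goodC x k := by
    by_cases h1 : n = 2 * k + 1
    · have := lb_one x hx k hk (by rw [Fintype.card_fin, h1])
      have e : n - 2 = 2 * k - 1 := by omega
      rw [e]
      exact this
    · have h2 : 1000000 * n ≤ 2000001 * k := by
        rcases h with h | h
        · exact absurd h h1
        · exact h
      have hk2 : 2 ≤ k := by omega
      obtain ⟨q, rfl⟩ := Nat.exists_eq_add_of_le hk2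
      have := main_lb x hx q (n - 2 * (2 + q)) (by rw [Fintype.card_fin]; omega) (by omega)
        (by omega)
      have e : 2 * q + 2 + (n - 2 * (2 + q)) = n - 2 := by omega
      rw [e, add_comm q 2] at this
      exact this
  rw [← posSums_eq] at key
  exact_mod_cast key

/-- the extremal configuration -/
theorem upper (n k : ℕ) (hk : 1 ≤ k) (hn : 2 * k < n) :
    ∃ x : Fin n → ℝ, 0 < ∑ i, x i ∧ posSums n k x = (n - 2).choose k := by
  obtain ⟨N, rfl⟩ : ∃ N, n = N + 2 := ⟨n - 2, by omega⟩
  have hNR : (2 : ℝ) * k + 1 ≤ N + 2 := by exact_mod_cast hn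
  have hkR : (1 : ℝ) ≤ k := by exact_mod_cast hk
  set a : Fin (N + 2) := ⟨0, by omega⟩ with ha
  set b : Fin (N + 2) := ⟨1, by omega⟩ with hb
  have hab : a ≠ b := by
    rw [ha, hb]; simp
  set w : ℝ := - (N : ℝ) / 2 + 1 / 4 with hw
  set x : Fin (N + 2) → ℝ := fun i => if i = a ∨ i = b then w else 1 with hx
  have hxa : x a = w := by rw [hx]; simp
  have hxb : x b = w := by rw [hx]; simp
  set M : Finset (Fin (N + 2)) := (univ.erase a).erase b with hM
  have hMc : M.card = N := by
    rw [hM, card_M a b hab, Fintype.card_fin]; rfl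
  have hxM : ∀ i ∈ M, x i = 1 := by
    intro i hi
    have h1 := Finset.mem_erase.1 hi
    have h2 := Finset.mem_erase.1 h1.2
    rw [hx]
    simp [h1.1, h2.1]
  have hMsum : ∑ i ∈ M, x i = N := by
    rw [Finset.sum_congr rfl hxM, Finset.sum_const, hMc, nsmul_eq_mul, mul_one]
  have htot : ∑ i, x i = 1 / 2 := by
    have := sum_M a b hab x
    rw [← hM, hMsum, hxa, hxb, hw] at this
    linarith
  refine ⟨x, by rw [htot]; norm_num, ?_⟩
  have hset : (univ.powersetCard k).filter (fun S : Finset (Fin (N + 2)) => 0 < ∑ i ∈ S, x i) =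
      M.powersetCard k := by
    ext S
    rw [Finset.mem_filter, Finset.mem_powersetCard, Finset.mem_powersetCard]
    constructor
    · rintro ⟨⟨_, hS⟩, hpos⟩
      refine ⟨?_, hS⟩
      by_contra hc
      have hSab : a ∈ S ∨ b ∈ S := by
        by_contra h
        push Not at h
        apply hc
        intro i hi
        rw [hM, Finset.mem_erase, Finset.mem_erase]
        refine ⟨fun h' => h.2 (h' ▸ hi), fun h' => h.1 (h' ▸ hi), Finset.mem_univ _⟩
      have hle : ∀ i, x i ≤ 1 := by
        intro i
        rw [hx]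
        simp only
        split_ifs
        · rw [hw]
          have : (0 : ℝ) ≤ N := by positivity
          linarith
        · exact le_rfl
      have hbound : ∀ c, x c = w → c ∈ S → ∑ i ∈ S, x i ≤ w + (k - 1) := by
        intro c hc hcS
        rw [← Finset.add_sum_erase S x hcS, hc]
        have h1 : ∑ i ∈ S.erase c, x i ≤ ∑ i ∈ S.erase c, (1 : ℝ) :=
          Finset.sum_le_sum fun i _ => hle i
        rw [Finset.sum_const, Finset.card_erase_of_mem hcS, hS, nsmul_eq_mul, mul_one,
          Nat.cast_sub hk] at h1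
        push_cast at h1
        linarith
      rcases hSab with h | h
      · have := hbound a hxa h
        rw [hw] at this
        linarith
      · have := hbound b hxb h
        rw [hw] at this
        linarith
    · rintro ⟨hSM, hS⟩
      refine ⟨⟨Finset.subset_univ _, hS⟩, ?_⟩
      rw [Finset.sum_congr rfl (fun i hi => hxM i (hSM hi)), Finset.sum_const, hS, nsmul_eq_mul,
        mul_one]
      linarith
  unfold posSums
  rw [hset, Finset.card_powersetCard, hMc]
  rfl

/-- `f(n,k) = f(n,n-k)`: the sets of values agree -/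
theorem values_sub (n k : ℕ) (hk : 1 ≤ k) (hkn : k < n) : values n k ⊆ values n (n - k) := by
  rintro m ⟨x, hx, rfl⟩
  set T : ℝ := ∑ i, x i with hT
  have hkR : (1 : ℝ) ≤ k := by exact_mod_cast hk
  have hknR : (0 : ℝ) < ((n - k : ℕ) : ℝ) := by
    have : 0 < n - k := by omega
    exact_mod_cast this
  have hnk : ((n - k : ℕ) : ℝ) = n - k := by rw [Nat.cast_sub hkn.le]
  refine ⟨fun i => T / ((n - k : ℕ) : ℝ) - x i, ?_, ?_⟩
  · rw [Finset.sum_sub_distrib, Finset.sum_const, Finset.card_univ, Fintype.card_fin,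
      nsmul_eq_mul, ← hT]
    have : (n : ℝ) * (T / ((n - k : ℕ) : ℝ)) - T = k * T / ((n - k : ℕ) : ℝ) := by
      have : ((n - k : ℕ) : ℝ) ≠ 0 := hknR.ne'
      field_simp
      rw [hnk]
      ring
    rw [this]
    positivity
  · unfold posSums
    refine Finset.card_nbij' (fun S => Sᶜ) (fun S => Sᶜ) ?_ ?_ ?_ ?_
    · intro S hS
      simp only [Finset.coe_filter, Set.mem_setOf_eq, Finset.mem_powersetCard] at hS ⊢
      obtain ⟨⟨_, hc⟩, hp⟩ := hS
      have hc' : (Sᶜ).card = k := by
        rw [Finset.card_compl, Fintype.card_fin, hc]; omega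
      refine ⟨⟨Finset.subset_univ _, hc'⟩, ?_⟩
      rw [Finset.sum_sub_distrib, Finset.sum_const, hc, nsmul_eq_mul] at hp
      have e : ((n - k : ℕ) : ℝ) * (T / ((n - k : ℕ) : ℝ)) = T := by
        field_simp
      rw [e] at hp
      have := Finset.sum_add_sum_compl S x
      rw [← hT] at this
      linarith
    · intro S hS
      simp only [Finset.coe_filter, Set.mem_setOf_eq, Finset.mem_powersetCard] at hS ⊢
      obtain ⟨⟨_, hc⟩, hp⟩ := hS
      have hc' : (Sᶜ).card = n - k := by
        rw [Finset.card_compl, Fintype.card_fin, hc]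
      refine ⟨⟨Finset.subset_univ _, hc'⟩, ?_⟩
      rw [Finset.sum_sub_distrib, Finset.sum_const, hc', nsmul_eq_mul]
      have e : ((n - k : ℕ) : ℝ) * (T / ((n - k : ℕ) : ℝ)) = T := by
        field_simp
      rw [e]
      have := Finset.sum_add_sum_compl S x
      rw [← hT] at this
      linarith
    · intro S _
      simp
    · intro S _
      simp

theorem values_symm (n k : ℕ) (hk : 1 ≤ k) (hkn : k < n) : values n k = values n (n - k) := by
  refine Set.Subset.antisymm (values_sub n k hk hkn) ?_
  have := values_sub n (n - k) (by omega) (by omega)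
  have e : n - (n - k) = k := by omega
  rwa [e] at this

theorem least_right (n k : ℕ) (hk : 1 ≤ k) (hn : 2 * k < n)
    (h : n = 2 * k + 1 ∨ 1000000 * n ≤ 2000001 * k) :
    IsLeast (values n k) ((n - 2).choose k) := by
  constructor
  · obtain ⟨x, hx, hc⟩ := upper n k hk hn
    exact ⟨x, hx, hc⟩
  · rintro m ⟨x, hx, rfl⟩
    exact lower n k hk hn h x hx

theorem least_left (n k : ℕ) (hkn : k < n) (hn : n < 2 * k)
    (h : n + 1 = 2 * k ∨ 2000001 * k ≤ 1000001 * n) :
    IsLeast (values n k) ((n - 2).choose (n - k)) := by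
  rw [values_symm n k (by omega) hkn]
  exact least_right n (n - k) (by omega) (by omega) (by omega)

end Pool.Agent.H49.MMS
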